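import Pool.Agent.H659R3.MorseLim.Defs

/-! # Definitions: Morse quasi-geodesics, Morse local-to-global groups, stable subgroups, growth
rates, right-angled Artin groups

A map `q : ℝ → G` restricted to an interval is used as a (not necessarily continuous) path in the
Cayley graph with values in the set of vertices `G`, which carries the word metric. -/

set_option autoImplicit false

namespace Pool.Agent.TH98.GS

open scoped ENNReal
open Pool.Agent.H659R3 Pool.Agent.H659R3.MorseLim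

section Defs

variable {G : Type} [Group G] (A : FinGen G)

/-- The map `q`, restricted to the interval `I`, is a `(lam, eps)`-quasi-geodesic for the word
metric of `G`. -/
def QG (lam eps : ℝ) (I : Set ℝ) (q : ℝ → G) : Prop :=
  ∀ s ∈ I, ∀ t ∈ I,
    |s - t| / lam - eps ≤ (A.dist (q s) (q t) : ℝ) ∧
      (A.dist (q s) (q t) : ℝ) ≤ lam * |s - t| + eps

/-- The set `Y` is `M`-Morse: every `(lam, eps)`-quasi-geodesic with endpoints in `Y` stays in
the `M(lam, eps)`-neighbourhood of `Y`. -/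
def IsMorseSet (M : ℝ → ℝ → ℝ) (Y : Set G) : Prop :=
  ∀ lam eps a b : ℝ, 1 ≤ lam → 0 ≤ eps → a ≤ b → ∀ q : ℝ → G, QG A lam eps (Set.Icc a b) q →
    q a ∈ Y → q b ∈ Y → ∀ t ∈ Set.Icc a b, ∃ y ∈ Y, (A.dist (q t) y : ℝ) ≤ M lam eps

/-- `γ`, restricted to the interval `I`, is an `M`-Morse `(lam, eps)`-quasi-geodesic. -/
def MorseQG (M : ℝ → ℝ → ℝ) (lam eps : ℝ) (I : Set ℝ) (γ : ℝ → G) : Prop :=
  QG A lam eps I γ ∧ IsMorseSet A M (γ '' I)

/-- `γ`, restricted to the interval `I`, is an `L`-local `(M; lam, eps)`-Morse quasi-geodesic: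
each of its subpaths with parameter interval of length at most `L` is an `M`-Morse
`(lam, eps)`-quasi-geodesic. -/
def LocalMorseQG (L : ℝ) (M : ℝ → ℝ → ℝ) (lam eps : ℝ) (I : Set ℝ) (γ : ℝ → G) : Prop :=
  ∀ s t : ℝ, s ≤ t → t - s ≤ L → Set.Icc s t ⊆ I → MorseQG A M lam eps (Set.Icc s t) γ

/-- The Morse local-to-global property. -/
def MorseLocalToGlobal : Prop :=
  ∀ (M : ℝ → ℝ → ℝ) (lam eps : ℝ), 1 ≤ lam → 0 ≤ eps →
    ∃ (L : ℝ) (M' : ℝ → ℝ → ℝ) (lam' eps' : ℝ), 0 ≤ L ∧ 1 ≤ lam' ∧ 0 ≤ eps' ∧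
      ∀ (I : Set ℝ), I.OrdConnected → ∀ γ : ℝ → G,
        LocalMorseQG A L M lam eps I γ → MorseQG A M' lam' eps' I γ

/-- `g` is a Morse element: it has infinite order and `n ↦ gⁿ` (`n ∈ ℤ`) is a Morse
quasi-geodesic. -/
def IsMorseElement (g : G) : Prop :=
  (∀ n : ℕ, 0 < n → g ^ n ≠ 1) ∧
    (∃ lam eps : ℝ, 1 ≤ lam ∧ 0 ≤ eps ∧ ∀ m n : ℤ,
      |(m : ℝ) - n| / lam - eps ≤ (A.dist (g ^ m) (g ^ n) : ℝ) ∧
        (A.dist (g ^ m) (g ^ n) : ℝ) ≤ lam * |(m : ℝ) - n| + eps) ∧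
    ∃ M, IsMorseSet A M (Set.range fun n : ℤ => g ^ n)

/-- `H` is a stable subgroup: it is finitely generated, undistorted, and there is a Morse gauge
`M` such that every geodesic joining two points of `H` is `M`-Morse. -/
def IsStable (H : Subgroup G) : Prop :=
  (∃ (B : FinGen H) (C : ℝ), ∀ h : H, (B.len h : ℝ) ≤ C * A.len (h : G) + C) ∧
    ∃ M, ∀ (n : ℕ) (p : ℕ → G), IsGeod A (Set.Iic n) p → p 0 ∈ H → p n ∈ H →
      IsMorseSet A M (p '' Set.Iic n)

/-- The growth rate `λ_S(H) = limsup_n |{h ∈ H : |h|_S ≤ n}|^(1/n)` of the subgroup `H` of `G`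
with respect to the word length of `G`, as an element of `[0, ∞]`. -/
noncomputable def growth (H : Subgroup G) : ℝ≥0∞ :=
  Filter.limsup (fun n : ℕ =>
    (({h : G | h ∈ H ∧ A.len h ≤ n}.encard : ℝ≥0∞)) ^ ((n : ℝ)⁻¹)) Filter.atTop

end Defs

/-- The defining relations of the right-angled Artin group with defining graph `Γ`: the
generators corresponding to adjacent vertices commute. -/
def raagRels {V : Type} (Γ : SimpleGraph V) : Set (FreeGroup V) :=
  {r | ∃ u v : V, Γ.Adj u v ∧ r = FreeGroup.of u * FreeGroup.of v * (FreeGroup.of u)⁻¹ *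
    (FreeGroup.of v)⁻¹}

/-- The right-angled Artin group with defining graph `Γ`. -/
abbrev RAAG {V : Type} (Γ : SimpleGraph V) : Type := PresentedGroup (raagRels Γ)

/-- The disjoint union of two paths with three vertices: the vertices are the pairs `(i, a)` with
`i` a Boolean and `a ∈ {0, 1, 2}`; the edges join `(i, 2)` to `(i, 0)` and `(i, 1)`. -/
def twoPaths : SimpleGraph (Bool × Fin 3) where
  Adj u v := u.1 = v.1 ∧ ((u.2 = 2 ∧ v.2 ≠ 2) ∨ (u.2 ≠ 2 ∧ v.2 = 2))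
  symm := ⟨by
    rintro u v ⟨h1, h2⟩
    exact ⟨h1.symm, h2.symm.imp And.symm And.symm⟩⟩
  loopless := ⟨by
    rintro u ⟨-, ⟨h1, h2⟩ | ⟨h1, h2⟩⟩
    · exact h2 h1
    · exact h1 h2⟩

end Pool.Agent.TH98.GS
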