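import Pool.Agent.TH98.GS.Len
import Pool.Agent.TH98.GS.Def

/-! # `G = (F₂ × ℤ) * (F₂ × ℤ)` is a right-angled Artin group -/

set_option autoImplicit false

namespace Pool.Agent.TH98.GS

open Pool.Agent.H659R3 Pool.Agent.H659R3.MorseLim Monoid Monoid.CoprodI

/-- The generators of `F₂ × ℤ`. -/
def κ : Fin 3 → KK
  | 0 => (FreeGroup.of true, 1)
  | 1 => (FreeGroup.of false, 1)
  | 2 => (1, Multiplicative.ofAdd 1)

theorem κ_range : Set.range κ = gK := by
  ext k
  constructor
  · rintro ⟨a, rfl⟩
    fin_cases a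
    · exact Or.inl rfl
    · exact Or.inr (Or.inl rfl)
    · exact Or.inr (Or.inr rfl)
  · rintro (rfl | rfl | rfl)
    · exact ⟨0, rfl⟩
    · exact ⟨1, rfl⟩
    · exact ⟨2, rfl⟩

theorem κ_comm (k : KK) : κ 2 * k = k * κ 2 := by
  refine Prod.ext ?_ ?_
  · change 1 * k.1 = k.1 * 1
    simp
  · change Multiplicative.ofAdd 1 * k.2 = k.2 * Multiplicative.ofAdd 1
    rw [mul_comm]

/-- The map from the right-angled Artin group to `G`. -/
noncomputable def toG : RAAG twoPaths →* GG :=
  PresentedGroup.toGroup (f := fun u : Bool × Fin 3 => ι u.1 (κ u.2)) (by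
    rintro r ⟨⟨i, a⟩, ⟨j, b⟩, ⟨h1, h2⟩, rfl⟩
    simp only at h1
    subst h1
    simp only [map_mul, map_inv, FreeGroup.lift_apply_of]
    have : κ a * κ b = κ b * κ a := by
      rcases h2 with ⟨h, -⟩ | ⟨-, h⟩
      · simp only at h
        rw [h, κ_comm]
      · simp only at h
        rw [h, κ_comm]
    have h3 : (ι i (κ a) : GG) * ι i (κ b) = ι i (κ b) * ι i (κ a) := by
      rw [← map_mul, this, map_mul]
    rw [h3]; group)

theorem toG_of (u : Bool × Fin 3) : toG (PresentedGroup.of u) = ι u.1 (κ u.2) :=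
  PresentedGroup.toGroup.of _

/-- The generators of the right-angled Artin group commute along the edges. -/
theorem raag_comm (i : Bool) (a : Fin 3) (ha : a ≠ 2) :
    (PresentedGroup.of (i, a) : RAAG twoPaths) * PresentedGroup.of (i, 2) =
      PresentedGroup.of (i, 2) * PresentedGroup.of (i, a) := by
  have h : (PresentedGroup.mk (raagRels twoPaths))
      (FreeGroup.of ((i, a) : Bool × Fin 3) * FreeGroup.of (i, 2) * (FreeGroup.of (i, a))⁻¹ *
        (FreeGroup.of (i, 2))⁻¹) = 1 := by
    apply PresentedGroup.one_of_mem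
    exact ⟨(i, a), (i, 2), ⟨rfl, Or.inr ⟨ha, rfl⟩⟩, rfl⟩
  rw [map_mul, map_mul, map_mul, map_inv, map_inv] at h
  have h2 := mul_inv_eq_one.1 h
  have h3 := mul_inv_eq_iff_eq_mul.1 h2
  exact h3

/-- The index of a generator of `F₂`. -/
def bi (b : Bool) : Fin 3 := if b then 0 else 1

/-- The map from `F₂`. -/
noncomputable def fF (i : Bool) : F2 →* RAAG twoPaths :=
  FreeGroup.lift fun b => PresentedGroup.of (i, bi b)

/-- The map from `ℤ`. -/
noncomputable def fZ (i : Bool) : Multiplicative ℤ →* RAAG twoPaths :=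
  zpowersHom (RAAG twoPaths) (PresentedGroup.of (i, 2))

theorem fF_comm (i : Bool) (w : F2) (n : Multiplicative ℤ) : Commute (fF i w) (fZ i n) := by
  have h1 : ∀ w : F2, Commute (fF i w) (PresentedGroup.of (i, 2)) := by
    intro w
    induction w using FreeGroup.induction_on with
    | C1 => rw [map_one]; exact Commute.one_left _
    | of b =>
      rw [fF, FreeGroup.lift_apply_of]
      apply raag_comm
      cases b <;> decide
    | inv_of b h => rw [map_inv]; exact h.inv_left
    | mul x y hx hy => rw [map_mul]; exact hx.mul_left hy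
  rw [fZ, zpowersHom_apply]
  exact (h1 w).zpow_right _

/-- The map from the factor `i`. -/
noncomputable def fK (i : Bool) : KK →* RAAG twoPaths :=
  MonoidHom.noncommCoprod (fF i) (fZ i) (fF_comm i)

/-- The map from `G` to the right-angled Artin group. -/
noncomputable def ofG : GG →* RAAG twoPaths := CoprodI.lift fK

theorem ofG_ι (i : Bool) (k : KK) : ofG (ι i k) = fK i k := by
  rw [ofG, CoprodI.lift_of]

theorem fK_κ (i : Bool) (a : Fin 3) : fK i (κ a) = PresentedGroup.of (i, a) := by
  rw [fK, MonoidHom.noncommCoprod_apply]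
  fin_cases a
  · change fF i (FreeGroup.of true) * fZ i 1 = _
    rw [map_one, mul_one, fF, FreeGroup.lift_apply_of]; rfl
  · change fF i (FreeGroup.of false) * fZ i 1 = _
    rw [map_one, mul_one, fF, FreeGroup.lift_apply_of]; rfl
  · change fF i 1 * fZ i (Multiplicative.ofAdd 1) = _
    rw [map_one, one_mul, fZ, zpowersHom_apply]
    simp

/-- `G` is the right-angled Artin group with defining graph `twoPaths`. -/
noncomputable def raagEquiv : RAAG twoPaths ≃* GG :=
  MonoidHom.toMulEquiv toG ofG
    (by
      apply PresentedGroup.ext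
      intro u
      rw [MonoidHom.comp_apply, toG_of, ofG_ι, fK_κ]
      rfl)
    (by
      apply CoprodI.ext_hom
      intro i
      have hcl : ∀ k : KK, k ∈ Subgroup.closure gK → toG (ofG (ι i k)) = ι i k := by
        intro k hk
        induction hk using Subgroup.closure_induction with
        | mem x hx =>
          rw [← κ_range] at hx
          obtain ⟨a, rfl⟩ := hx
          rw [ofG_ι, fK_κ, toG_of]
        | one => simp
        | mul x y _ _ hx hy => rw [map_mul, map_mul, map_mul, hx, hy]
        | inv x _ hx => rw [map_inv, map_inv, map_inv, hx]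
      ext1 k
      exact hcl k (by rw [gK_gen]; trivial))

theorem raagEquiv_of (u : Bool × Fin 3) : raagEquiv (PresentedGroup.of u) = ι u.1 (κ u.2) :=
  toG_of u

/-- The standard generators correspond to the standard generators. -/
theorem raagEquiv_image :
    raagEquiv '' Set.range (PresentedGroup.of (rels := raagRels twoPaths)) = A.S := by
  ext x
  constructor
  · rintro ⟨_, ⟨u, rfl⟩, rfl⟩
    rw [raagEquiv_of]
    exact mem_A (by rw [← κ_range]; exact ⟨u.2, rfl⟩)
  · intro hx
    obtain ⟨i, k, hk, rfl⟩ := exists_of_mem_A hx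
    rw [← κ_range] at hk
    obtain ⟨a, rfl⟩ := hk
    exact ⟨_, ⟨(i, a), rfl⟩, raagEquiv_of (i, a)⟩

end Pool.Agent.TH98.GS
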