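import Pool.Agent.TH98.GS.Schur

/-! # The growth series of `G` and of the subgroups meeting the conjugates of the factors
trivially -/

set_option autoImplicit false

namespace Pool.Agent.TH98.GS

open scoped ENNReal
open Pool.Agent.H659R3 Pool.Agent.H659R3.MorseLim Monoid Monoid.CoprodI

/-- The index of the first syllable. -/
noncomputable def hd (g : GG) : Option Bool := (wd g).head?.map Sigma.fst

open Classical in
/-- The contribution of the elements with `n` syllables, the first one in the factor `i`. -/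
noncomputable def uu (z : ℝ≥0∞) (n : ℕ) (i : Bool) (g : GG) : ℝ≥0∞ :=
  if (wd g).length = n ∧ (g = 1 ∨ hd g = some i) then z ^ A.len g else 0

theorem uu_zero (z : ℝ≥0∞) (i : Bool) (g : GG) [Decidable (g = 1)] :
    uu z 0 i g = if g = 1 then 1 else 0 := by
  rw [uu]
  by_cases h : g = 1
  · subst h
    simp [wd_one]
  · rw [if_neg h, if_neg]
    rintro ⟨h1, -⟩
    exact h (wd_eq_nil (List.length_eq_zero_iff.1 h1))

theorem uu_succ (z : ℝ≥0∞) (n : ℕ) (i : Bool) (g : GG) :
    uu z (n + 1) i g = ∑' k, mw z k * uu z n (!i) (ι i k⁻¹ * g) := by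
  obtain ⟨p, t, ht, hti, -, hw⟩ := exists_pair g i
  have hg := hw 1
  rw [map_one, one_mul, one_mul] at hg
  have hnil : wd (1 : GG) = [] := wd_one
  rw [tsum_eq_single p]
  · have hp := hw p⁻¹
    rw [inv_mul_cancel, if_pos rfl] at hp
    by_cases h1 : p = 1
    · rw [h1, mw_one, zero_mul, uu, if_neg]
      rintro ⟨h2, h3 | h3⟩
      · rw [h3, hnil] at h2
        simp at h2
      · rw [if_pos h1] at hg
        rw [hd, hg] at h3
        rcases t with _ | ⟨y, t⟩
        · simp at h3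
        · simp only [List.head?_cons, Option.map_some, Option.some.injEq] at h3
          exact hti y (by simp) h3.symm
    · rw [if_neg h1] at hg
      rw [mw_of_ne z h1, uu, uu, len_eq, len_eq, hg, hp, hd, hg, hd, hp]
      have c1 : ((⟨i, p⟩ :: t : List (Σ _ : Bool, KK)).length = n + 1 ∧
          (g = 1 ∨ (⟨i, p⟩ :: t : List (Σ _ : Bool, KK)).head?.map Sigma.fst = some i)) ↔
          t.length = n := by simp
      have c2 : (t.length = n ∧ (ι i p⁻¹ * g = 1 ∨ t.head?.map Sigma.fst = some (!i))) ↔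
          t.length = n := by
        rw [and_iff_left_iff_imp]
        intro _
        rcases t with _ | ⟨y, t⟩
        · exact Or.inl (wd_eq_nil hp)
        · right
          have := hti y (by simp)
          simp only [List.head?_cons, Option.map_some, Option.some.injEq]
          cases i <;> cases hy : y.1 <;> simp_all
      rw [if_congr c1 rfl rfl, if_congr c2 rfl rfl]
      split_ifs
      · rw [ll_cons, pow_add]
      · simp
  · intro k hk
    have h1 := hw k⁻¹
    have h2 : k⁻¹ * p ≠ 1 := fun h => hk (inv_mul_eq_one.1 h)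
    rw [if_neg h2] at h1
    rw [uu, if_neg, mul_zero]
    rintro ⟨-, h3 | h3⟩
    · rw [h3, hnil] at h1
      simp at h1
    · rw [hd, h1] at h3
      simp at h3

theorem pow_le_uu (z : ℝ≥0∞) (g : GG) :
    z ^ A.len g ≤ ∑' n, (uu z n true g + uu z n false g) := by
  refine le_trans ?_ (ENNReal.le_tsum (wd g).length)
  rcases h : wd g with _ | ⟨⟨i, k⟩, t⟩
  · have : g = 1 := wd_eq_nil h
    subst this
    refine le_trans (le_of_eq ?_) le_self_add
    rw [uu, if_pos]
    simp [h]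
  · have h1 : uu z (wd g).length i g = z ^ A.len g := by
      rw [uu, if_pos]
      exact ⟨rfl, Or.inr (by rw [hd, h]; rfl)⟩
    rw [h] at h1
    cases i
    · rw [h1]; exact le_add_self
    · rw [h1]; exact le_self_add

theorem uu_le_pow (z : ℝ≥0∞) (i : Bool) (g : GG) : ∑' n, uu z n i g ≤ z ^ A.len g := by
  rw [tsum_eq_single (wd g).length]
  · rw [uu]
    split_ifs
    · exact le_rfl
    · exact zero_le
  · intro n hn
    rw [uu, if_neg]
    rintro ⟨h, -⟩
    exact hn h.symm

/-- The growth series of `G`. -/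
theorem tsum_uu (z : ℝ≥0∞) (n : ℕ) (i : Bool) :
    ∑' g, uu z n i g = (∑' k, mw z k) ^ n := by
  induction n generalizing i with
  | zero =>
    classical
    simp only [uu_zero, pow_zero]
    rw [tsum_ite_eq]
  | succ n ih =>
    simp only [uu_succ]
    rw [ENNReal.tsum_comm]
    have : ∀ k, ∑' g, mw z k * uu z n (!i) (ι i k⁻¹ * g) = mw z k * (∑' k, mw z k) ^ n := by
      intro k
      have e := (Equiv.mulLeft (ι i k⁻¹)).tsum_eq (fun g => uu z n (!i) g)
      simp only [Equiv.coe_mulLeft] at e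
      rw [ENNReal.tsum_mul_left, e, ih]
    simp only [this]
    rw [ENNReal.tsum_mul_right, pow_succ, mul_comm]

theorem series_top {z : ℝ≥0∞} (h : 1 ≤ ∑' k, mw z k) : ∑' g : GG, z ^ A.len g = ⊤ := by
  have h1 : ∑' n, ∑' g, uu z n true g ≤ ∑' g : GG, z ^ A.len g := by
    rw [ENNReal.tsum_comm]
    exact ENNReal.tsum_le_tsum fun g => uu_le_pow z true g
  rw [eq_top_iff]
  refine le_trans ?_ h1
  simp only [tsum_uu]
  have h2 : (∑' _ : ℕ, (1 : ℝ≥0∞)) = ⊤ := by
    rw [ENNReal.tsum_const]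
    simp
  rw [← h2]
  exact ENNReal.tsum_le_tsum fun n => one_le_pow₀ h

section Sub

variable (H : Subgroup GG)

/-- The action of the factor `i` on `G/H`. -/
noncomputable def ρ (i : Bool) : KK →* Equiv.Perm (GG ⧸ H) :=
  (MulAction.toPermHom GG (GG ⧸ H)).comp (ι i)

theorem ρ_apply (i : Bool) (k : KK) (g : GG) :
    ρ H i k (QuotientGroup.mk g) = QuotientGroup.mk (ι i k * g) := rfl

theorem ρ_free (hH : ∀ (i : Bool) (g : GG) (k : KK), g * ι i k * g⁻¹ ∈ H → k = 1) (i : Bool)
    (k : KK) (hk : k ≠ 1) (ω : GG ⧸ H) : ρ H i k ω ≠ ω := by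
  induction ω using QuotientGroup.induction_on with
  | _ g =>
    intro h
    rw [ρ_apply] at h
    have h1 := QuotientGroup.eq.1 h.symm
    apply hk
    apply hH i g⁻¹ k
    simpa [mul_assoc] using h1

open Classical in
/-- The pushforward of `uu` to `G/H`. -/
noncomputable def FF (z : ℝ≥0∞) (n : ℕ) (i : Bool) (ω : GG ⧸ H) : ℝ≥0∞ :=
  ∑' g : GG, if (QuotientGroup.mk g : GG ⧸ H) = ω then uu z n i g else 0

theorem FF_succ (z : ℝ≥0∞) (n : ℕ) (i : Bool) (ω : GG ⧸ H) :
    FF H z (n + 1) i ω = ∑' k, mw z k * FF H z n (!i) (ρ H i k⁻¹ ω) := by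
  classical
  rw [FF]
  have h1 : (fun g : GG => if (QuotientGroup.mk g : GG ⧸ H) = ω then uu z (n + 1) i g else 0) =
      fun g => ∑' k, mw z k * (if (QuotientGroup.mk g : GG ⧸ H) = ω then
        uu z n (!i) (ι i k⁻¹ * g) else 0) := by
    funext g
    by_cases h : (QuotientGroup.mk g : GG ⧸ H) = ω
    · simp only [h, if_true]
      exact uu_succ z n i g
    · simp [h]
  rw [h1, ENNReal.tsum_comm]
  congr 1
  funext k
  rw [ENNReal.tsum_mul_left]
  congr 1
  rw [FF, ← (Equiv.mulLeft (ι i k)).tsum_eq]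
  congr 1
  funext g
  rw [Equiv.coe_mulLeft]
  have e : ι i k⁻¹ * (ι i k * g) = g := by
    rw [← mul_assoc, ← map_mul]; simp
  rw [e]
  refine if_congr ?_ rfl rfl
  rw [← ρ_apply, map_inv]
  constructor
  · rintro rfl
    exact (perm_inv_apply _ _).symm
  · intro h
    rw [h]
    exact perm_apply_inv _ _

theorem FF_zero (z : ℝ≥0∞) (i : Bool) (ω : GG ⧸ H) [Decidable (ω = QuotientGroup.mk 1)] :
    FF H z 0 i ω = if ω = QuotientGroup.mk 1 then 1 else 0 := by
  classical
  rw [FF, tsum_eq_single 1]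
  · rw [uu_zero, if_pos rfl]
    exact if_congr eq_comm rfl rfl
  · intro g hg
    rw [uu_zero, if_neg hg]
    simp

theorem FF_sq (hH : ∀ (i : Bool) (g : GG) (k : KK), g * ι i k * g⁻¹ ∈ H → k = 1) {z c : ℝ≥0∞}
    (hz : z ≠ ⊤) (hc : ∑' k, mw z k ≤ c + z * 2⁻¹) (n : ℕ) (i : Bool) :
    ∑' ω, FF H z n i ω ^ 2 ≤ (c ^ n) ^ 2 := by
  induction n generalizing i with
  | zero =>
    classical
    simp only [FF_zero]
    simp
  | succ n ih =>
    simp only [FF_succ]
    refine (schur (ρ H i) (fun k hk ω => ρ_free H hH i k hk ω) hz hc _).trans ?_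
    calc c ^ 2 * ∑' ω, FF H z n (!i) ω ^ 2 ≤ c ^ 2 * (c ^ n) ^ 2 := by gcongr; exact ih _
      _ = (c ^ (n + 1)) ^ 2 := by ring

theorem FF_le (hH : ∀ (i : Bool) (g : GG) (k : KK), g * ι i k * g⁻¹ ∈ H → k = 1) {z c : ℝ≥0∞}
    (hz : z ≠ ⊤) (hc : ∑' k, mw z k ≤ c + z * 2⁻¹) (n : ℕ) (i : Bool) (ω : GG ⧸ H) :
    FF H z n i ω ≤ c ^ n := by
  have h1 : FF H z n i ω ^ 2 ≤ (c ^ n) ^ 2 := (ENNReal.le_tsum ω).trans (FF_sq H hH hz hc n i)
  exact (ENNReal.pow_le_pow_left_iff two_ne_zero).1 h1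

theorem series_le (hH : ∀ (i : Bool) (g : GG) (k : KK), g * ι i k * g⁻¹ ∈ H → k = 1)
    {z c : ℝ≥0∞} (hz : z ≠ ⊤) (hc : ∑' k, mw z k ≤ c + z * 2⁻¹) :
    ∑' h : H, z ^ A.len (h : GG) ≤ 2 * (1 - c)⁻¹ := by
  classical
  have h1 : ∀ n i, ∑' h : H, uu z n i (h : GG) ≤ c ^ n := by
    intro n i
    refine le_trans (le_of_eq ?_) (FF_le H hH hz hc n i (QuotientGroup.mk 1))
    rw [FF]
    have e : (∑' h : H, uu z n i (h : GG)) = ∑' g : GG, (H : Set GG).indicator (uu z n i) g :=
      tsum_subtype (H : Set GG) (uu z n i)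
    rw [e]
    congr 1
    funext g
    rw [Set.indicator_apply]
    refine if_congr ?_ rfl rfl
    rw [SetLike.mem_coe, eq_comm, QuotientGroup.eq]
    simp
  calc ∑' h : H, z ^ A.len (h : GG)
      ≤ ∑' h : H, ∑' n, (uu z n true (h : GG) + uu z n false (h : GG)) :=
        ENNReal.tsum_le_tsum fun h => pow_le_uu z _
    _ = ∑' n, (∑' h : H, uu z n true (h : GG) + ∑' h : H, uu z n false (h : GG)) := by
        rw [ENNReal.tsum_comm]
        congr 1
        funext n
        rw [ENNReal.tsum_add]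
    _ ≤ ∑' n, 2 * c ^ n := by
        refine ENNReal.tsum_le_tsum fun n => ?_
        rw [two_mul]
        exact add_le_add (h1 n true) (h1 n false)
    _ = 2 * (1 - c)⁻¹ := by
        rw [ENNReal.tsum_mul_left, ENNReal.tsum_geometric]

end Sub

end Pool.Agent.TH98.GS
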