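import Pool.Agent.TH98.GS.Len
import Pool.Agent.H659R3.MorseLim.Flat

/-! # Detours in `F₂ × ℤ` -/

set_option autoImplicit false

namespace Pool.Agent.TH98.GS

open Pool.Agent.H659R3 Pool.Agent.H659R3.MorseLim

theorem ray_dist {f : ℕ → F2} (h1 : ∀ k, (f k).norm = k) (h2 : ∀ k, ∃ x, f (k + 1) = f k * lt x)
    (i j : ℕ) : ((((f i)⁻¹ * f j).norm : ℕ) : ℤ) = |(i : ℤ) - j| := by
  have key : ∀ i j : ℕ, i ≤ j → ((((f i)⁻¹ * f j).norm : ℕ) : ℤ) = j - i := by
    intro i j hij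
    apply le_antisymm
    · obtain ⟨k, rfl⟩ := Nat.exists_eq_add_of_le hij
      have : ((f i)⁻¹ * f (i + k)).norm ≤ k := by
        clear hij
        induction k with
        | zero => simp
        | succ k ih =>
          obtain ⟨x, hx⟩ := h2 (i + k)
          rw [← add_assoc, hx, ← mul_assoc]
          have := FreeGroup.norm_mul_le ((f i)⁻¹ * f (i + k)) (lt x)
          rw [norm_lt] at this
          omega
      push_cast
      omega
    · have h3 := FreeGroup.norm_mul_le (f i) ((f i)⁻¹ * f j)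
      rw [mul_inv_cancel_left, h1, h1] at h3
      omega
  rcases le_total i j with h | h
  · rw [key i j h, abs_sub_comm, abs_of_nonneg (by omega)]
  · have e : ((f i)⁻¹ * f j).norm = ((f j)⁻¹ * f i).norm := by
      rw [← FreeGroup.norm_inv_eq]; congr 1; group
    rw [e, key j i h, abs_of_nonneg (by omega)]

theorem detour_aux {pt : ℤ → ℤ → KK} {s x y : ℤ} {l : ℕ} (hs : s = 1 ∨ s = -1)
    (hsx : s * |x| = x) (hl : (l : ℤ) = |x| + |y|) (hxy : |y| ≤ |x|)
    (hpt : ∀ x₁ y₁ x₂ y₂, 0 ≤ s * x₁ → 0 ≤ s * x₂ → min 0 y ≤ y₁ → min 0 y ≤ y₂ →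
      (kl ((pt x₁ y₁)⁻¹ * pt x₂ y₂) : ℤ) = |x₁ - x₂| + |y₁ - y₂|) :
    ∃ (L : ℕ) (p : ℕ → KK), l ≤ L ∧ p 0 = pt 0 0 ∧ p L = pt x y ∧ p l = pt 0 l ∧
      ∀ i j : ℕ, i ≤ j → j ≤ L → kl ((p i)⁻¹ * p j) ≤ j - i ∧
        (j : ℤ) - i ≤ 6 * kl ((p i)⁻¹ * p j) := by
  have hss : ∀ u : ℤ, s * (s * u) = u := by
    intro u
    rcases hs with rfl | rfl <;> ring
  have hsabs : ∀ u v : ℤ, |s * u - s * v| = |u - v| := by
    intro u v
    rw [← mul_sub, abs_mul]
    rcases hs with rfl | rfl <;> simp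
  have hy1 : y ≤ |x| := (le_abs_self y).trans hxy
  have hy2 : -|x| ≤ y := by
    have := neg_abs_le y
    linarith
  have hyy : -|y| ≤ y := neg_abs_le y
  have hyy' : y ≤ |y| := le_abs_self y
  have hx0 := abs_nonneg x
  have hy0 := abs_nonneg y
  obtain ⟨L, hL⟩ : ∃ L : ℕ, (L : ℤ) = 2 * l + |x| - y :=
    ⟨(2 * l + |x| - y).toNat, by
      rw [Int.toNat_of_nonneg]
      omega⟩
  set p : ℕ → KK := fun k => pt (s * min (max ((k : ℤ) - l) 0) |x|)
    (min (k : ℤ) l - max ((k : ℤ) - l - |x|) 0) with hp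
  refine ⟨L, p, by omega, ?_, ?_, ?_, ?_⟩
  · simp only [hp]
    congr 1
    · have : min (max (((0 : ℕ) : ℤ) - l) 0) |x| = 0 := by omega
      rw [this, mul_zero]
    · omega
  · simp only [hp]
    congr 1
    · have : min (max ((L : ℤ) - l) 0) |x| = |x| := by omega
      rw [this, hsx]
    · omega
  · simp only [hp]
    congr 1
    · have : min (max ((l : ℤ) - l) 0) |x| = 0 := by omega
      rw [this, mul_zero]
    · omega
  · intro i j hij hj
    have e := hpt (s * min (max ((i : ℤ) - l) 0) |x|) (min (i : ℤ) l - max ((i : ℤ) - l - |x|) 0)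
      (s * min (max ((j : ℤ) - l) 0) |x|) (min (j : ℤ) l - max ((j : ℤ) - l - |x|) 0)
      (by rw [hss]; omega) (by rw [hss]; omega) (by omega) (by omega)
    rw [hsabs] at e
    have ar := detour_arith (a := |x|) (y := y) (l := l) (L := L) (i := i) (j := j)
      (abs_nonneg x) hy1 hy2 hl hL (by omega) (by omega) (by omega)
    rw [← e] at ar
    have e' : kl ((p i)⁻¹ * p j) = kl ((pt (s * min (max ((i : ℤ) - l) 0) |x|)
        (min (i : ℤ) l - max ((i : ℤ) - l - |x|) 0))⁻¹ * (pt (s * min (max ((j : ℤ) - l) 0) |x|)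
        (min (j : ℤ) l - max ((j : ℤ) - l - |x|) 0))) := rfl
    rw [← e'] at ar
    constructor
    · omega
    · exact ar.2

theorem detour' (u : F2) (n : ℤ) : ∃ (L : ℕ) (p : ℕ → KK),
    kl (u, Multiplicative.ofAdd n) ≤ L ∧ p 0 = 1 ∧ p L = (u, Multiplicative.ofAdd n) ∧
    (∀ i j : ℕ, i ≤ j → j ≤ L → kl ((p i)⁻¹ * p j) ≤ j - i ∧
      (j : ℤ) - i ≤ 6 * kl ((p i)⁻¹ * p j)) ∧
    kl (p (kl (u, Multiplicative.ofAdd n))) = kl (u, Multiplicative.ofAdd n) ∧
    kl (u, Multiplicative.ofAdd n) ≤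
      kl ((p (kl (u, Multiplicative.ofAdd n)))⁻¹ * (u, Multiplicative.ofAdd n)) := by
  obtain ⟨f, f0, fu, f1, f2⟩ := exists_ray u
  have hkl : (kl (u, Multiplicative.ofAdd n) : ℤ) = (u.norm : ℤ) + |n| := by
    rw [kl]; push_cast; simp
  have hcalc : ∀ (a b : ℕ) (c d : ℤ), (kl (((f a, Multiplicative.ofAdd c) : KK)⁻¹ *
      (f b, Multiplicative.ofAdd d)) : ℤ) = |(a : ℤ) - b| + |c - d| := by
    intro a b c d
    rw [kl]
    change ((((f a)⁻¹ * f b).norm + (-c + d).natAbs : ℕ) : ℤ) = _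
    push_cast
    rw [ray_dist f1 f2]
    have : |-c + d| = |c - d| := by rw [← abs_neg]; congr 1; ring
    rw [this]
  rcases le_total |n| (u.norm : ℤ) with h | h
  · obtain ⟨L, p, h1, h2, h3, h4, h5⟩ := detour_aux
      (pt := fun x y => ((f x.toNat, Multiplicative.ofAdd y) : KK)) (s := 1) (x := u.norm) (y := n)
      (l := kl (u, Multiplicative.ofAdd n)) (Or.inl rfl) (by simp) (by simpa using hkl)
      (by simpa using h) (by
        intro x₁ y₁ x₂ y₂ a1 a2 _ _
        rw [hcalc, Int.toNat_of_nonneg (by omega), Int.toNat_of_nonneg (by omega)])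
    refine ⟨L, p, h1, ?_, ?_, h5, ?_, ?_⟩
    · rw [h2]; simp only [Int.toNat_zero, f0]; rfl
    · rw [h3]; simp only [Int.toNat_natCast, fu]
    · have := hcalc 0 0 0 (kl (u, Multiplicative.ofAdd n))
      rw [h4]
      have e : (((f 0, Multiplicative.ofAdd 0) : KK)⁻¹ *
        (f 0, Multiplicative.ofAdd ((kl (u, Multiplicative.ofAdd n) : ℕ) : ℤ))) =
        (f (Int.toNat 0), Multiplicative.ofAdd ((kl (u, Multiplicative.ofAdd n) : ℕ) : ℤ)) := by
        rw [f0]
        refine Prod.ext ?_ ?_ <;> simp [f0]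
      rw [e] at this
      simp only [sub_self, abs_zero, zero_sub, abs_neg, zero_add, Nat.abs_cast] at this
      exact_mod_cast this
    · have := hcalc 0 u.norm (kl (u, Multiplicative.ofAdd n)) n
      rw [fu] at this
      rw [h4]
      change kl (u, Multiplicative.ofAdd n) ≤ kl (((f 0, Multiplicative.ofAdd
        ((kl (u, Multiplicative.ofAdd n) : ℕ) : ℤ)) : KK)⁻¹ * (u, Multiplicative.ofAdd n))
      have h6 := le_abs_self ((kl (u, Multiplicative.ofAdd n) : ℤ) - n)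
      have h7 := le_abs_self n
      simp only [Nat.cast_zero, zero_sub, abs_neg, Nat.abs_cast] at this
      omega
  · obtain ⟨s, hs, hsx⟩ : ∃ s : ℤ, (s = 1 ∨ s = -1) ∧ s * |n| = n := by
      rcases abs_cases n with ⟨h, -⟩ | ⟨h, -⟩
      · exact ⟨1, Or.inl rfl, by rw [h, one_mul]⟩
      · exact ⟨-1, Or.inr rfl, by rw [h]; ring⟩
    obtain ⟨L, p, h1, h2, h3, h4, h5⟩ := detour_aux
      (pt := fun x y => ((f y.toNat, Multiplicative.ofAdd x) : KK)) (s := s) (x := n) (y := u.norm)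
      (l := kl (u, Multiplicative.ofAdd n)) hs hsx (by rw [Nat.abs_cast, add_comm]; exact hkl)
      (by simpa using h) (by
        intro x₁ y₁ x₂ y₂ _ _ a1 a2
        rw [hcalc, Int.toNat_of_nonneg (by omega), Int.toNat_of_nonneg (by omega), add_comm])
    refine ⟨L, p, h1, ?_, ?_, h5, ?_, ?_⟩
    · rw [h2]; simp only [Int.toNat_zero, f0]; rfl
    · rw [h3]; simp only [Int.toNat_natCast, fu]
    · rw [h4]
      simp only [Int.toNat_natCast]
      have e : kl (f (kl (u, Multiplicative.ofAdd n)), Multiplicative.ofAdd (0 : ℤ)) =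
          (f (kl (u, Multiplicative.ofAdd n))).norm := by
        rw [kl]; simp
      rw [e, f1]
    · rw [h4]
      have := hcalc (kl (u, Multiplicative.ofAdd n)) u.norm 0 n
      rw [fu] at this
      simp only [Int.toNat_natCast]
      have h6 := le_abs_self ((kl (u, Multiplicative.ofAdd n) : ℤ) - u.norm)
      rw [zero_sub, abs_neg] at this
      omega

/-- Every element of `F₂ × ℤ` of length `l` is joined to `1` by a quasi-geodesic with a point
at distance `l` from `1` and at least `l` from the other end. -/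
theorem detour (k : KK) : ∃ (L : ℕ) (p : ℕ → KK), kl k ≤ L ∧ p 0 = 1 ∧ p L = k ∧
    (∀ i j : ℕ, i ≤ j → j ≤ L → kl ((p i)⁻¹ * p j) ≤ j - i ∧
      (j : ℤ) - i ≤ 6 * kl ((p i)⁻¹ * p j)) ∧
    kl (p (kl k)) = kl k ∧ kl k ≤ kl ((p (kl k))⁻¹ * k) := detour' k.1 (Multiplicative.toAdd k.2)

end Pool.Agent.TH98.GS
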