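import Mathlib

/-! # The free group of rank two: letters, lengths and geodesic rays -/

set_option autoImplicit false

namespace Pool.Agent.TH98.GS

/-- The free group of rank two. -/
abbrev F2 : Type := FreeGroup Bool

/-- The letter of `F2` given by a generator and a sign. -/
def lt (x : Bool × Bool) : F2 := FreeGroup.mk [x]

theorem lt_inv (x : Bool × Bool) : (lt x)⁻¹ = lt (x.1, !x.2) := by
  simp [lt, FreeGroup.inv_mk, FreeGroup.invRev]

theorem norm_lt (x : Bool × Bool) : (lt x).norm = 1 := rfl

theorem lt_ne_one (x : Bool × Bool) : lt x ≠ 1 := by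
  intro h
  have := norm_lt x
  rw [h] at this
  simp at this

theorem lt_injective : Function.Injective lt := by
  intro x y h
  have := congrArg FreeGroup.toWord h
  simpa [lt] using this

/-- Multiplying by a letter on the left. -/
theorem toWord_lt_mul (x : Bool × Bool) (w : F2) :
    (lt x * w).toWord = if w.toWord.head? = some (x.1, !x.2) then w.toWord.tail
      else x :: w.toWord := by
  have h1 : lt x * w = FreeGroup.mk (x :: w.toWord) := by
    conv_lhs => rw [← FreeGroup.mk_toWord (x := w)]
    rw [lt, FreeGroup.mul_mk]; rfl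
  rw [h1, FreeGroup.toWord_mk, FreeGroup.reduce.cons, FreeGroup.reduce_toWord]
  rcases hw : w.toWord with _ | ⟨y, l⟩
  · simp
  · obtain ⟨x1, x2⟩ := x
    obtain ⟨y1, y2⟩ := y
    simp only [List.head?_cons, Option.some.injEq, Prod.mk.injEq, List.tail_cons]
    by_cases h : x1 = y1 ∧ x2 = !y2
    · have h' : y1 = x1 ∧ y2 = !x2 := by
        obtain ⟨rfl, rfl⟩ := h
        simp
      rw [if_pos h, if_pos h']
    · have h' : ¬ (y1 = x1 ∧ y2 = !x2) := by
        rintro ⟨rfl, rfl⟩
        exact h (by simp)
      rw [if_neg h, if_neg h']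

/-- `x` is the letter cancelling the first letter of `w`. -/
def Canc (x : Bool × Bool) (w : F2) : Prop := w.toWord.head? = some (x.1, !x.2)

instance (x : Bool × Bool) (w : F2) : Decidable (Canc x w) :=
  inferInstanceAs (Decidable (w.toWord.head? = some (x.1, !x.2)))

theorem norm_of_canc {x : Bool × Bool} {w : F2} (h : Canc x w) :
    (lt x * w).norm + 1 = w.norm := by
  have h' : w.toWord.head? = some (x.1, !x.2) := h
  rw [FreeGroup.norm, FreeGroup.norm, toWord_lt_mul, if_pos h']
  rcases hw : w.toWord with _ | ⟨y, l⟩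
  · rw [Canc, hw] at h
    simp at h
  · simp

theorem norm_of_not_canc {x : Bool × Bool} {w : F2} (h : ¬ Canc x w) :
    (lt x * w).norm = w.norm + 1 := by
  have h' : ¬ w.toWord.head? = some (x.1, !x.2) := h
  rw [FreeGroup.norm, FreeGroup.norm, toWord_lt_mul, if_neg h', List.length_cons]

theorem canc_iff {x : Bool × Bool} {w : F2} : Canc x w ↔ (lt x * w).norm < w.norm := by
  constructor
  · intro h
    have := norm_of_canc h
    omega
  · intro h
    by_contra h'
    have := norm_of_not_canc h'
    omega

theorem not_canc_one (x : Bool × Bool) : ¬ Canc x 1 := by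
  rw [canc_iff]; simp

/-- A nontrivial element has exactly one cancelling letter. -/
theorem exists_canc {w : F2} (hw : w ≠ 1) : ∃ y : Bool × Bool, ∀ x, Canc x w ↔ x = y := by
  rcases h : w.toWord with _ | ⟨⟨y1, y2⟩, l⟩
  · exact absurd (FreeGroup.toWord_eq_nil_iff.1 h) hw
  · refine ⟨(y1, !y2), fun ⟨x1, x2⟩ => ?_⟩
    rw [Canc, h]
    simp only [List.head?_cons, Option.some.injEq, Prod.mk.injEq]
    constructor
    · rintro ⟨rfl, rfl⟩; simp
    · rintro ⟨rfl, rfl⟩; simp

/-- The cancelling letter of the inverse situation. -/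
theorem canc_inv {x : Bool × Bool} {w : F2} : Canc (x.1, !x.2) (lt x * w) ↔ ¬ Canc x w := by
  have e : lt (x.1, !x.2) * (lt x * w) = w := by
    rw [← lt_inv]; group
  rw [canc_iff, e]
  constructor
  · intro h h'
    have := norm_of_canc h'
    omega
  · intro h
    have := norm_of_not_canc h
    omega

theorem exists_long (w : F2) : ∃ x : Bool × Bool, (w * lt x).norm = w.norm + 1 := by
  have key : ∀ w : F2, ∃ x, ¬ Canc x w := by
    intro w
    by_cases hw : w = 1
    · exact ⟨(true, true), by rw [hw]; exact not_canc_one _⟩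
    · obtain ⟨y, hy⟩ := exists_canc hw
      by_cases h : y = (true, true)
      · exact ⟨(false, true), fun h' => by
          rw [hy, h] at h'; simp at h'⟩
      · exact ⟨(true, true), fun h' => h ((hy _).1 h').symm⟩
  obtain ⟨x, hx⟩ := key w⁻¹
  refine ⟨(x.1, !x.2), ?_⟩
  have := norm_of_not_canc hx
  rw [← FreeGroup.norm_inv_eq, mul_inv_rev, inv_inv, lt_inv, FreeGroup.norm_inv_eq] at this
  exact this

/-- Every element lies on a geodesic ray from `1`. -/
theorem exists_ray (u : F2) : ∃ f : ℕ → F2, f 0 = 1 ∧ f u.norm = u ∧ (∀ k, (f k).norm = k) ∧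
    ∀ k, ∃ x, f (k + 1) = f k * lt x := by
  obtain ⟨c, hc⟩ : ∃ c : F2 → Bool × Bool, ∀ w, (w * lt (c w)).norm = w.norm + 1 :=
    ⟨fun w => (exists_long w).choose, fun w => (exists_long w).choose_spec⟩
  -- the extension
  let g : ℕ → F2 := fun n => Nat.rec u (fun _ w => w * lt (c w)) n
  have g0 : g 0 = u := rfl
  have gs : ∀ n, g (n + 1) = g n * lt (c (g n)) := fun n => rfl
  have gn : ∀ n, (g n).norm = u.norm + n := by
    intro n
    induction n with
    | zero => rfl
    | succ n ih => rw [gs, hc, ih]; rfl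
  let f : ℕ → F2 := fun k => if k ≤ u.norm then FreeGroup.mk (u.toWord.take k) else g (k - u.norm)
  have hf1 : ∀ k, k ≤ u.norm → f k = FreeGroup.mk (u.toWord.take k) := fun k hk => if_pos hk
  have hf2 : ∀ k, u.norm < k → f k = g (k - u.norm) := fun k hk => if_neg (by omega)
  have hfu : f u.norm = u := by
    rw [hf1 _ le_rfl, FreeGroup.norm, List.take_length, FreeGroup.mk_toWord]
  refine ⟨f, ?_, hfu, ?_, ?_⟩
  · rw [hf1 0 (Nat.zero_le _)]; rfl
  · intro k
    rcases le_or_gt k u.norm with hk | hk
    · rw [hf1 k hk]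
      apply le_antisymm
      · refine FreeGroup.norm_mk_le.trans ?_
        simp
      · have e : u = FreeGroup.mk (u.toWord.take k) * FreeGroup.mk (u.toWord.drop k) := by
          rw [FreeGroup.mul_mk, List.take_append_drop, FreeGroup.mk_toWord]
        have h1 := FreeGroup.norm_mul_le (FreeGroup.mk (u.toWord.take k))
          (FreeGroup.mk (u.toWord.drop k))
        rw [← e] at h1
        have h2 : (FreeGroup.mk (u.toWord.drop k)).norm ≤ u.norm - k := by
          refine FreeGroup.norm_mk_le.trans ?_
          rw [List.length_drop]; rfl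
        omega
    · rw [hf2 k hk, gn]; omega
  · intro k
    rcases lt_or_ge k u.norm with hk | hk
    · have hk' : k < u.toWord.length := hk
      refine ⟨u.toWord[k], ?_⟩
      rw [hf1 (k + 1) hk, hf1 k hk.le, lt, FreeGroup.mul_mk, List.take_append_getElem]
    · refine ⟨c (f k), ?_⟩
      rw [hf2 (k + 1) (by omega)]
      rcases Nat.eq_or_lt_of_le hk with rfl | hk
      · rw [hfu, show u.norm + 1 - u.norm = 0 + 1 by omega, gs, g0]
      · rw [hf2 k hk, show k + 1 - u.norm = (k - u.norm) + 1 by omega, gs]

end Pool.Agent.TH98.GS
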