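import Pool.Agent.H659R3.MorseLim.FreeProd
import Pool.Agent.TH98.GS.Def

/-! # Betweenness in a free product and quasi-geodesics

`Btw x w y`: the cut point `w` separates `x` from `y`. -/

set_option autoImplicit false

namespace Pool.Agent.TH98.GS

open Pool.Agent.H659R3 Pool.Agent.H659R3.MorseLim Monoid Monoid.CoprodI

/-! ### Words of inverses and products -/

section Words

variable {K : Type} [Group K]

theorem wd_inv (g : FP K) :
    wd g⁻¹ = ((wd g).map fun x => (⟨x.1, x.2⁻¹⟩ : Σ _ : Bool, K)).reverse := by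
  have hr := wd_red g
  have hlp : ∀ l : List (Σ _ : Bool, K),
      MorseLim.lp ((l.map fun x => (⟨x.1, x.2⁻¹⟩ : Σ _ : Bool, K)).reverse) =
        (MorseLim.lp l)⁻¹ := by
    intro l
    induction l with
    | nil => simp [MorseLim.lp]
    | cons x l ih =>
      rw [List.map_cons, List.reverse_cons, lp_append, ih, lp_singleton, lp_cons, mul_inv_rev,
        map_inv]
  have hr' : Red ((wd g).map fun x => (⟨x.1, x.2⁻¹⟩ : Σ _ : Bool, K)).reverse := by
    refine ⟨?_, ?_⟩
    · intro x hx
      rw [List.mem_reverse, List.mem_map] at hx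
      obtain ⟨y, hy, rfl⟩ := hx
      simpa using hr.1 y hy
    · rw [List.isChain_reverse, List.isChain_map]
      exact hr.2.imp fun a b h => h.symm
  rw [← wd_lp hr', hlp, lp_wd]

/-- The index of the first syllable. -/
theorem fidx_eq (g : FP K) : fidx g = (wd g).head?.map Sigma.fst := by
  rw [fidx, wd_inv, lastI, List.getLast?_reverse, List.head?_map, Option.map_map]
  rfl

theorem fidx_inv (g : FP K) : fidx g⁻¹ = lastI (wd g) := by rw [fidx, inv_inv]

theorem wd_mul {x y : FP K} (h : fidx x⁻¹ ≠ fidx y ∨ fidx y = none) :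
    wd (x * y) = wd x ++ wd y := by
  have hx := wd_red x
  have hy := wd_red y
  have : Red (wd x ++ wd y) := by
    refine ⟨?_, ?_⟩
    · intro z hz
      rcases List.mem_append.1 hz with hz | hz
      · exact hx.1 z hz
      · exact hy.1 z hz
    · rw [List.isChain_append]
      refine ⟨hx.2, hy.2, ?_⟩
      intro a ha b hb hab
      rw [fidx_inv, fidx_eq, lastI] at h
      rw [Option.mem_def] at ha hb
      rw [ha, hb] at h
      simp only [Option.map_some, ne_eq, Option.some.injEq, reduceCtorEq, or_false] at h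
      exact h hab
  rw [← wd_lp this, lp_append, lp_wd, lp_wd]

theorem fidx_eq_none {g : FP K} : fidx g = none ↔ g = 1 := by
  constructor
  · intro h
    rw [fidx_eq] at h
    rcases hw : wd g with _ | ⟨x, l⟩
    · exact wd_eq_nil hw
    · rw [hw] at h
      simp at h
  · rintro rfl
    exact fidx_one

theorem fidx_mul' {x y : FP K} (hx : x ≠ 1) (h : fidx x⁻¹ ≠ fidx y ∨ fidx y = none) :
    fidx (x * y) = fidx x := by
  rw [fidx_eq, fidx_eq, wd_mul h]
  rcases hw : wd x with _ | ⟨z, l⟩
  · exact absurd (wd_eq_nil hw) hx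
  · simp

end Words

/-! ### Betweenness -/

section Between

variable {K : Type} [Group K] {A : FinGen (FP K)} (hA : FactorGen A)

/-- The point `w` separates `x` from `y`. -/
def Btw (x w y : FP K) : Prop := ∃ i : Bool, fidx (w⁻¹ * x) = some i ∧ fidx (w⁻¹ * y) = some (!i)

theorem Btw.symm {x w y : FP K} (h : Btw x w y) : Btw y w x := by
  obtain ⟨i, h1, h2⟩ := h
  exact ⟨!i, h2, by simpa using h1⟩

theorem Btw.inner {x w y : FP K} (h : Btw x w y) : fidx (y⁻¹ * x) = fidx (y⁻¹ * w) := by
  obtain ⟨i, h1, h2⟩ := h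
  have e : y⁻¹ * x = (y⁻¹ * w) * (w⁻¹ * x) := by group
  rw [e]
  apply fidx_mul'
  · intro h
    have : w⁻¹ * y = 1 := by
      have h3 : w⁻¹ * y = (y⁻¹ * w)⁻¹ := by group
      rw [h3, h, inv_one]
    rw [this, fidx_one] at h2
    simp at h2
  · left
    have h3 : (y⁻¹ * w)⁻¹ = w⁻¹ * y := by group
    rw [h3, h1, h2]
    simp

theorem Btw.trans_right {x w y z : FP K} (h : Btw x w y) (h' : Btw w y z) : Btw x y z := by
  obtain ⟨i, h1, h2⟩ := h'
  exact ⟨i, by rw [h.inner, h1], h2⟩

theorem Btw.trans_left {x w y z : FP K} (h : Btw x w y) (h' : Btw w y z) : Btw x w z := by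
  obtain ⟨i, h1, h2⟩ := h
  exact ⟨i, h1, by rw [h'.symm.inner, h2]⟩

include hA in
theorem Btw.dist {x w y : FP K} (h : Btw x w y) : A.dist x w + A.dist w y = A.dist x y := by
  obtain ⟨i, h1, h2⟩ := h
  apply le_antisymm
  · refine isCut hA w i x h1 y ?_
    change ¬ fidx (w⁻¹ * y) = some i
    rw [h2]
    simp
  · exact A.dist_triangle _ _ _

include hA in
theorem Btw.switch {x w y x' : FP K} (h : Btw x w y) (hd : A.dist x x' < A.dist x w) :
    Btw x' w y := by
  obtain ⟨i, h1, h2⟩ := h
  refine ⟨i, ?_, h2⟩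
  by_contra h3
  have := isCut hA w i x h1 x' h3
  omega

theorem Btw.ne_left {x w y : FP K} (h : Btw x w y) : x ≠ w := by
  rintro rfl
  obtain ⟨i, h1, -⟩ := h
  rw [inv_mul_cancel, fidx_one] at h1
  simp at h1

theorem Btw.ne_right {x w y : FP K} (h : Btw x w y) : w ≠ y := h.symm.ne_left.symm

theorem btw_chain {w : ℕ → FP K} {N : ℕ} (h : ∀ i, i + 2 ≤ N → Btw (w i) (w (i + 1)) (w (i + 2))) :
    ∀ n ≤ N, ∀ j, j + 1 < n → Btw (w 0) (w (j + 1)) (w n) := by
  intro n
  induction n with
  | zero => intro _ j hj; omega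
  | succ n ih =>
    intro hn
    have ih' := ih (by omega)
    -- the last one
    have hlast : ∀ m, n = m + 1 → Btw (w 0) (w (m + 1)) (w (m + 2)) := by
      rintro m rfl
      rcases m with _ | m
      · exact h 0 (by omega)
      · have h1 := ih' m (by omega)
        exact h1.trans_right (h (m + 1) (by omega))
    intro j hj
    rcases Nat.eq_or_lt_of_le (Nat.lt_succ_iff.1 hj) with hj' | hj'
    · subst hj'
      exact hlast j rfl
    · obtain ⟨m, rfl⟩ : ∃ m, n = m + 1 := ⟨n - 1, by omega⟩
      have h1 := ih' j hj'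
      have h2 := hlast m rfl
      have h3 : Btw (w (j + 1)) (w (m + 1)) (w (m + 2)) := by
        obtain ⟨i, h4, h5⟩ := h2
        exact ⟨i, by rw [← h1.inner, h4], h5⟩
      exact h1.trans_left h3

include hA in
theorem dist_chain {w : ℕ → FP K} {N : ℕ}
    (h : ∀ i, i + 2 ≤ N → Btw (w i) (w (i + 1)) (w (i + 2))) :
    ∀ n ≤ N, n ≤ A.dist (w 0) (w n) + 1 := by
  have hc := btw_chain h
  intro n
  induction n with
  | zero => intro _; omega
  | succ n ih =>
    intro hn
    rcases n with _ | n
    · omega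
    · have h1 := ih (by omega)
      have h2 := hc (n + 2) hn n (by omega)
      have h3 := h2.dist hA
      have h4 : A.dist (w (n + 1)) (w (n + 2)) ≠ 0 := fun h0 => h2.ne_right (A.eq_of_dist h0)
      change n + 1 + 1 ≤ A.dist (w 0) (w (n + 2)) + 1
      omega

end Between

/-! ### Quasi-geodesics and cut points -/

section Quasi

variable {G : Type} [Group G] {A : FinGen G}

theorem QG.mono {lam eps : ℝ} {I J : Set ℝ} {q : ℝ → G} (h : QG A lam eps I q) (hJ : J ⊆ I) :
    QG A lam eps J q := fun s hs t ht => h s (hJ hs) t (hJ ht)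

/-- If points `w 0, ..., w N` with small gaps are close to a quasi-geodesic, the quasi-geodesic
is close to these points. -/
theorem connect {lam eps a b D b0 : ℝ} (hlam : 1 ≤ lam) {q : ℝ → G}
    (hq : QG A lam eps (Set.Icc a b) q) {w : ℕ → G} {N : ℕ} {c : ℕ → ℝ} (hc0 : c 0 = a)
    (hcN : c N = b) (hc : ∀ i ≤ N, c i ∈ Set.Icc a b)
    (hd : ∀ i ≤ N, (A.dist (q (c i)) (w i) : ℝ) ≤ D)
    (hb : ∀ i < N, (A.dist (w i) (w (i + 1)) : ℝ) ≤ b0) {t : ℝ} (ht : t ∈ Set.Icc a b)
    (heps : 0 ≤ eps) :
    ∃ i ≤ N, (A.dist (q t) (w i) : ℝ) ≤ lam * (lam * (2 * D + |b0| + eps)) + eps + D := by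
  classical
  have hD : 0 ≤ D := le_trans (Nat.cast_nonneg _) (hd 0 (Nat.zero_le _))
  have hpos : 0 ≤ lam * (2 * D + |b0| + eps) := by positivity
  have hpos' : 0 ≤ lam * (lam * (2 * D + |b0| + eps)) := by positivity
  have hex : ∃ n, t ≤ c n := ⟨N, by rw [hcN]; exact ht.2⟩
  obtain ⟨n, hn⟩ : ∃ n, n = Nat.find hex := ⟨_, rfl⟩
  have hn1 : t ≤ c n := by rw [hn]; exact Nat.find_spec hex
  have hnN : n ≤ N := by
    rw [hn]; exact Nat.find_min' hex (by rw [hcN]; exact ht.2)
  rcases n with _ | k
  · refine ⟨0, Nat.zero_le _, ?_⟩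
    have : t = c 0 := le_antisymm hn1 (by rw [hc0]; exact ht.1)
    rw [this]
    have := hd 0 (Nat.zero_le _)
    linarith
  · have hk : c k < t := by
      by_contra h
      have := Nat.find_min' hex (not_lt.1 h)
      omega
    refine ⟨k, by omega, ?_⟩
    have h1 := (hq (c k) (hc k (by omega)) (c (k + 1)) (hc (k + 1) hnN)).1
    have h2 := (hq t ht (c k) (hc k (by omega))).2
    rw [abs_sub_comm, abs_of_nonneg (by linarith)] at h1
    rw [abs_of_nonneg (by linarith)] at h2
    have t1 : (A.dist (q (c k)) (q (c (k + 1))) : ℝ) ≤ A.dist (q (c k)) (w k) +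
        A.dist (w k) (w (k + 1)) + A.dist (q (c (k + 1))) (w (k + 1)) := by
      have a1 := A.dist_triangle (q (c k)) (w k) (q (c (k + 1)))
      have a2 := A.dist_triangle (w k) (w (k + 1)) (q (c (k + 1)))
      rw [A.dist_comm (w (k + 1)) (q (c (k + 1)))] at a2
      exact_mod_cast (by omega : A.dist (q (c k)) (q (c (k + 1))) ≤ A.dist (q (c k)) (w k) +
        A.dist (w k) (w (k + 1)) + A.dist (q (c (k + 1))) (w (k + 1)))
    have t2 : (A.dist (q t) (w k) : ℝ) ≤ A.dist (q t) (q (c k)) + A.dist (q (c k)) (w k) := by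
      exact_mod_cast A.dist_triangle _ _ _
    have d1 := hd k (by omega)
    have d2 := hd (k + 1) hnN
    have d3 := hb k (by omega)
    have d4 := le_abs_self b0
    have q3 : c (k + 1) - c k ≤ lam * (2 * D + |b0| + eps) := by
      have : (c (k + 1) - c k) / lam ≤ 2 * D + |b0| + eps := by linarith
      rwa [div_le_iff₀ (by linarith), mul_comm] at this
    have q4 : lam * (t - c k) ≤ lam * (lam * (2 * D + |b0| + eps)) :=
      mul_le_mul_of_nonneg_left (by linarith) (by linarith)
    linarith

/-- A discrete path gives a quasi-geodesic. -/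
theorem QG_of_nat {lam : ℝ} (hlam : 1 ≤ lam) {n : ℕ} {p : ℕ → G}
    (h : ∀ i j : ℕ, i ≤ j → j ≤ n → A.dist (p i) (p j) ≤ j - i ∧
      ((j:ℝ) - i) / lam ≤ A.dist (p i) (p j)) :
    QG A lam 1 (Set.Icc 0 n) (fun s => p ⌊s⌋₊) := isQuasiGeod_of_nat hlam h

/-- Moving the endpoints of a quasi-geodesic. -/
theorem QG.move {lam eps a b D : ℝ} {q : ℝ → G} (hq : QG A lam eps (Set.Icc a b) q)
    (hD : 0 ≤ D) {x y : G} (hx : (A.dist x (q a) : ℝ) ≤ D) (hy : (A.dist y (q b) : ℝ) ≤ D)
    (hab : a < b) :
    ∃ q' : ℝ → G, QG A lam (eps + 2 * D) (Set.Icc a b) q' ∧ q' a = x ∧ q' b = y ∧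
      ∀ t, a < t → t < b → q' t = q t := by
  refine ⟨fun s => if s = a then x else if s = b then y else q s, ?_, by simp,
    by simp [hab.ne'], fun t h1 h2 => by simp [h1.ne', h2.ne]⟩
  have hclose : ∀ s, (A.dist (q s) (if s = a then x else if s = b then y else q s) : ℝ) ≤ D := by
    intro s
    split_ifs with c1 c2
    · rw [c1, A.dist_comm]; exact hx
    · rw [c2, A.dist_comm]; exact hy
    · simpa using hD
  intro s hs u hu
  obtain ⟨a1, a2⟩ := hq s hs u hu
  have c1 := hclose s
  have c2 := hclose u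
  set q' : ℝ → G := fun s => if s = a then x else if s = b then y else q s with hq'
  have b1 : (A.dist (q s) (q u) : ℝ) ≤ A.dist (q s) (q' s) + A.dist (q' s) (q' u) +
      A.dist (q u) (q' u) := by
    have x1 := A.dist_triangle (q s) (q' s) (q u)
    have x2 := A.dist_triangle (q' s) (q' u) (q u)
    rw [A.dist_comm (q' u) (q u)] at x2
    exact_mod_cast (by omega : A.dist (q s) (q u) ≤ A.dist (q s) (q' s) + A.dist (q' s) (q' u) +
      A.dist (q u) (q' u))
  have b2 : (A.dist (q' s) (q' u) : ℝ) ≤ A.dist (q s) (q' s) + A.dist (q s) (q u) +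
      A.dist (q u) (q' u) := by
    have x1 := A.dist_triangle (q' s) (q s) (q' u)
    have x2 := A.dist_triangle (q s) (q u) (q' u)
    rw [A.dist_comm (q' s) (q s)] at x1
    exact_mod_cast (by omega : A.dist (q' s) (q' u) ≤ A.dist (q s) (q' s) + A.dist (q s) (q u) +
      A.dist (q u) (q' u))
  constructor <;> simp only [hq'] at * <;> linarith

theorem QG.reverse {lam eps a b : ℝ} {q : ℝ → G} (hq : QG A lam eps (Set.Icc a b) q) :
    QG A lam eps (Set.Icc a b) (fun s => q (a + b - s)) := by
  intro s hs t ht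
  have := hq (a + b - s) ⟨by linarith [hs.2], by linarith [hs.1]⟩ (a + b - t)
    ⟨by linarith [ht.2], by linarith [ht.1]⟩
  have e : |a + b - s - (a + b - t)| = |s - t| := by rw [← abs_neg]; congr 1; ring
  rw [e] at this
  exact this

/-- A geodesic between two points. -/
theorem exists_geod (x y : G) : ∃ p : ℕ → G, p 0 = x ∧ p (A.dist x y) = y ∧
    IsGeod A (Set.Iic (A.dist x y)) p := by
  obtain ⟨l, h1, h2, h3⟩ := A.len_spec (x⁻¹ * y)
  have hl : l.length = A.dist x y := h1
  refine ⟨fun n => x * (l.take n).prod, by simp, ?_, ?_⟩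
  · change x * (l.take (A.dist x y)).prod = y
    rw [← hl, List.take_length, h3]; group
  · apply isGeod_of_nat
    have key : ∀ m n, m ≤ n → n ≤ l.length →
        A.dist (x * (l.take m).prod) (x * (l.take n).prod) ≤ n - m := by
      intro m n hmn hn
      rw [A.dist_mul_left, FinGen.dist]
      have e : ((l.take m).prod)⁻¹ * (l.take n).prod = ((l.take n).drop m).prod := by
        have : (l.take n).prod = (l.take m).prod * ((l.take n).drop m).prod := by
          conv_lhs => rw [← List.take_append_drop m (l.take n)]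
          rw [List.prod_append, List.take_take, min_eq_left hmn]
        rw [this]; group
      rw [e]
      refine (A.len_le ?_).trans ?_
      · intro z hz
        exact h2 z (List.mem_of_mem_take (List.mem_of_mem_drop hz))
      · rw [List.length_drop, List.length_take]; omega
    intro m hm n hn hmn
    rw [Set.mem_Iic, ← hl] at hm hn
    apply le_antisymm (key m n hmn hn)
    have k1 := key 0 m (Nat.zero_le _) hm
    have k2 := key n l.length hn le_rfl
    rw [List.take_zero, List.prod_nil, mul_one] at k1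
    have e : x * (l.take l.length).prod = y := by
      rw [List.take_length, h3]; group
    rw [e] at k2
    have t1 := A.dist_triangle x (x * (l.take m).prod) y
    have t2 := A.dist_triangle (x * (l.take m).prod) (x * (l.take n).prod) y
    omega

end Quasi

end Pool.Agent.TH98.GS
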