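import Pool.Agent.TH98.GS.Count
import Pool.Agent.TH98.GS.Def

/-! # Growth rates -/

set_option autoImplicit false

namespace Pool.Agent.TH98.GS

open scoped ENNReal
open Pool.Agent.H659R3 Pool.Agent.H659R3.MorseLim

section General

variable {G : Type} [Group G] {A : FinGen G} {H : Subgroup G}

theorem growth_le {z C : ℝ≥0∞} (hz0 : z ≠ 0) (hz1 : z ≤ 1) (hC : C ≠ ⊤)
    (h : ∑' h : H, z ^ A.len (h : G) ≤ C) : growth A H ≤ z⁻¹ := by
  have hzt : z ≠ ⊤ := ne_top_of_le_ne_top ENNReal.one_ne_top hz1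
  have hcount : ∀ n : ℕ, (({h : G | h ∈ H ∧ A.len h ≤ n}.encard : ℝ≥0∞)) * z ^ n ≤ C := by
    intro n
    rw [← ENNReal.tsum_set_one, ← ENNReal.tsum_mul_right]
    refine le_trans ?_ h
    let f : {h : G | h ∈ H ∧ A.len h ≤ n} → H := fun x => ⟨x.1, x.2.1⟩
    have hf : Function.Injective f := fun x y hxy => Subtype.ext (congrArg (fun h : H => (h : G)) hxy)
    refine le_trans ?_ (ENNReal.tsum_comp_le_tsum_of_injective hf _)
    refine ENNReal.tsum_le_tsum fun x => ?_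
    rw [one_mul]
    exact pow_le_pow_right_of_le_one' hz1 x.2.2
  refine le_of_forall_gt_imp_ge_of_dense fun a ha => ?_
  rcases eq_or_ne a ⊤ with rfl | hat
  · exact le_top
  have ha0 : a ≠ 0 := (zero_le.trans_lt ha).ne'
  have haz : 1 < a * z := by
    have := ENNReal.mul_lt_mul_left hz0 hzt ha
    rwa [ENNReal.inv_mul_cancel hz0 hzt] at this
  have h1 : (a * z)⁻¹ < 1 := ENNReal.inv_lt_one.2 haz
  have h2 := ENNReal.Tendsto.const_mul (a := C) (ENNReal.tendsto_pow_atTop_nhds_zero_of_lt_one h1)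
    (Or.inr hC)
  rw [mul_zero] at h2
  have h3 : ∀ᶠ n : ℕ in Filter.atTop, C * (a * z)⁻¹ ^ n < 1 := h2.eventually_lt_const one_pos
  refine Filter.limsup_le_of_le ?_ ?_
  · isBoundedDefault
  · filter_upwards [h3, Filter.eventually_gt_atTop 0] with n hn hn0
    have hn' : (0:ℝ) < n := by exact_mod_cast hn0
    rw [ENNReal.rpow_inv_le_iff hn', ENNReal.rpow_natCast]
    have e1 := hcount n
    have hzn : z ^ n ≠ 0 := pow_ne_zero _ hz0
    have hznt : z ^ n ≠ ⊤ := ENNReal.pow_ne_top hzt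
    have hazn : (a * z) ^ n ≠ 0 := pow_ne_zero _ (mul_ne_zero ha0 hz0)
    have haznt : (a * z) ^ n ≠ ⊤ := ENNReal.pow_ne_top (ENNReal.mul_ne_top hat hzt)
    have e2 : C ≤ (a * z) ^ n := by
      have : C * (a * z)⁻¹ ^ n * (a * z) ^ n ≤ 1 * (a * z) ^ n := by gcongr
      rwa [one_mul, mul_assoc, ENNReal.inv_pow.symm, ENNReal.inv_mul_cancel hazn haznt,
        mul_one] at this
    rw [mul_pow] at e2
    exact (ENNReal.mul_le_mul_iff_left hzn hznt).1 (e1.trans e2)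

theorem le_growth {z : ℝ≥0∞} (hz0 : z ≠ 0) (hz1 : z < 1)
    (h : ∑' g : G, z ^ A.len g = ⊤) : z⁻¹ ≤ growth A ⊤ := by
  by_contra hlt
  rw [not_le] at hlt
  have hzt : z ≠ ⊤ := (hz1.trans ENNReal.one_lt_top).ne
  obtain ⟨r, hr1, hr2⟩ := exists_between hlt
  have h1 := Filter.eventually_lt_of_limsup_lt hr1
  obtain ⟨n₀, hn₀⟩ := Filter.eventually_atTop.1 h1
  have hrt : r ≠ ⊤ := (hr2.trans_le le_top).ne
  obtain ⟨B, hB⟩ : ∃ B : ℕ → ℝ≥0∞, ∀ n, B n =
      (({h : G | h ∈ (⊤ : Subgroup G) ∧ A.len h ≤ n}.encard : ℝ≥0∞)) := ⟨_, fun n => rfl⟩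
  have hBle : ∀ n, n₀ + 1 ≤ n → B n ≤ r ^ n := by
    intro n hn
    have h2 := (hn₀ n (by omega)).le
    have hn' : (0:ℝ) < n := by
      have : 0 < n := by omega
      exact_mod_cast this
    rw [ENNReal.rpow_inv_le_iff hn', ENNReal.rpow_natCast] at h2
    rw [hB]; exact h2
  have hBmono : ∀ m n, m ≤ n → B m ≤ B n := by
    intro m n hmn
    rw [hB, hB]
    have : ({h : G | h ∈ (⊤ : Subgroup G) ∧ A.len h ≤ m}.encard) ≤
        ({h : G | h ∈ (⊤ : Subgroup G) ∧ A.len h ≤ n}.encard) :=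
      Set.encard_le_encard fun x hx => ⟨hx.1, hx.2.trans hmn⟩
    exact_mod_cast this
  have hBall : ∀ n, B n * z ^ n ≤ r ^ (n₀ + 1) * z ^ n + (r * z) ^ n := by
    intro n
    rcases le_total n (n₀ + 1) with hn | hn
    · refine le_trans ?_ le_self_add
      gcongr
      exact (hBmono _ _ hn).trans (hBle _ le_rfl)
    · refine le_trans ?_ le_add_self
      rw [mul_pow]
      gcongr
      exact hBle n hn
  have h3 : ∑' g : G, z ^ A.len g ≤ ∑' n, B n * z ^ n := by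
    have h4 : (fun g : G => z ^ A.len g) = fun g => ∑' n, if n = A.len g then z ^ n else 0 := by
      funext g
      rw [tsum_eq_single (A.len g)]
      · rw [if_pos rfl]
      · intro n hn
        rw [if_neg hn]
    rw [h4, ENNReal.tsum_comm]
    refine ENNReal.tsum_le_tsum fun n => ?_
    rw [hB, ← ENNReal.tsum_set_one, ← ENNReal.tsum_mul_right]
    have e : (∑' x : ↑{h : G | h ∈ (⊤ : Subgroup G) ∧ A.len h ≤ n}, 1 * z ^ n) =
        ∑' g : G, ({h : G | h ∈ (⊤ : Subgroup G) ∧ A.len h ≤ n}).indicator (fun _ => 1 * z ^ n) g :=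
      tsum_subtype _ (fun _ => 1 * z ^ n)
    rw [e]
    refine ENNReal.tsum_le_tsum fun g => ?_
    split_ifs with hg
    · rw [Set.indicator_of_mem, one_mul]
      exact ⟨trivial, hg.ge⟩
    · exact zero_le
  have hrz : r * z < 1 := by
    have := ENNReal.mul_lt_mul_left hz0 hzt hr2
    rwa [ENNReal.inv_mul_cancel hz0 hzt] at this
  have h5 : ∑' n : ℕ, (r ^ (n₀ + 1) * z ^ n + (r * z) ^ n) ≠ ⊤ := by
    rw [ENNReal.tsum_add, ENNReal.tsum_mul_left, ENNReal.tsum_geometric, ENNReal.tsum_geometric]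
    refine ENNReal.add_ne_top.2 ⟨ENNReal.mul_ne_top (ENNReal.pow_ne_top hrt) ?_, ?_⟩
    · exact ENNReal.inv_ne_top.2 (tsub_pos_of_lt hz1).ne'
    · exact ENNReal.inv_ne_top.2 (tsub_pos_of_lt hrz).ne'
  apply h5
  rw [eq_top_iff, ← h]
  exact h3.trans (ENNReal.tsum_le_tsum hBall)

end General

/-! ### Numerical values -/

/-- The bound `1/0.109`. -/
noncomputable def z1 : ℝ≥0∞ := ENNReal.ofReal (109 / 1000)

/-- The bound `1/0.108`. -/
noncomputable def z2 : ℝ≥0∞ := ENNReal.ofReal (108 / 1000)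

theorem z1_pos : z1 ≠ 0 := by
  rw [z1]
  simp

theorem z2_pos : z2 ≠ 0 := by
  rw [z2]
  simp

theorem z1_lt : z1 < 1 := by
  rw [z1, ← ENNReal.ofReal_one]
  exact (ENNReal.ofReal_lt_ofReal_iff one_pos).2 (by norm_num)

theorem z2_lt : z2 < 1 := by
  rw [z2, ← ENNReal.ofReal_one]
  exact (ENNReal.ofReal_lt_ofReal_iff one_pos).2 (by norm_num)

theorem z2_lt_z1 : z2 < z1 := by
  rw [z1, z2]
  exact (ENNReal.ofReal_lt_ofReal_iff (by norm_num)).2 (by norm_num)

theorem one_sub_z1 : (1 - z1)⁻¹ = ENNReal.ofReal (1000 / 891) := by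
  rw [z1, ← ENNReal.ofReal_one, ← ENNReal.ofReal_sub _ (by norm_num),
    ← ENNReal.ofReal_inv_of_pos (by norm_num)]
  norm_num

theorem one_sub_three_z1 : (1 - 3 * z1)⁻¹ = ENNReal.ofReal (1000 / 673) := by
  have e3 : (3 : ℝ≥0∞) = ENNReal.ofReal 3 := by norm_num
  rw [z1, ← ENNReal.ofReal_one, e3, ← ENNReal.ofReal_mul (by norm_num),
    ← ENNReal.ofReal_sub _ (by norm_num), ← ENNReal.ofReal_inv_of_pos (by norm_num)]
  norm_num

theorem mw_z1 : ∑' k, mw z1 k ≤ ENNReal.ofReal (997 / 1000) + z1 * 2⁻¹ := by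
  have h := tsum_mw z1
  rw [PF_le, PZ_eq, one_sub_z1, one_sub_three_z1] at h
  have e4 : (4 : ℝ≥0∞) = ENNReal.ofReal 4 := by norm_num
  have e1 : (1 : ℝ≥0∞) = ENNReal.ofReal 1 := by norm_num
  have e2 : (2⁻¹ : ℝ≥0∞) = ENNReal.ofReal (1 / 2) := by
    have t : (2 : ℝ≥0∞) = ENNReal.ofReal 2 := by norm_num
    rw [t, ← ENNReal.ofReal_inv_of_pos (by norm_num)]; norm_num
  have h2 : (1 + 4 * z1 * ENNReal.ofReal (1000 / 673)) *
      (ENNReal.ofReal (1000 / 891) + z1 * ENNReal.ofReal (1000 / 891)) ≤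
      1 + (ENNReal.ofReal (997 / 1000) + z1 * 2⁻¹) := by
    rw [e2, z1, e4, e1, ← ENNReal.ofReal_mul (by norm_num), ← ENNReal.ofReal_mul (by norm_num),
      ← ENNReal.ofReal_mul (by norm_num), ← ENNReal.ofReal_mul (by norm_num),
      ← ENNReal.ofReal_add (by norm_num) (by norm_num),
      ← ENNReal.ofReal_add (by norm_num) (by norm_num),
      ← ENNReal.ofReal_add (by norm_num) (by norm_num),
      ← ENNReal.ofReal_mul (by norm_num), ← ENNReal.ofReal_add (by norm_num) (by norm_num)]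
    exact ENNReal.ofReal_le_ofReal (by norm_num)
  rw [← h] at h2
  exact (ENNReal.add_le_add_iff_left ENNReal.one_ne_top).1 h2

theorem mw_z2 : 1 ≤ ∑' k, mw z2 k := by
  have h := tsum_mw z2
  have h1 : (2 : ℝ≥0∞) ≤ PF z2 * PZ z2 := by
    refine le_trans ?_ (mul_le_mul' (le_PF z2) (le_PZ z2))
    have e1 : (1 : ℝ≥0∞) = ENNReal.ofReal 1 := by norm_num
    have e2 : (2 : ℝ≥0∞) = ENNReal.ofReal 2 := by norm_num
    have e4 : (4 : ℝ≥0∞) = ENNReal.ofReal 4 := by norm_num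
    have e12 : (12 : ℝ≥0∞) = ENNReal.ofReal 12 := by norm_num
    have e36 : (36 : ℝ≥0∞) = ENNReal.ofReal 36 := by norm_num
    have f2 : z2 ^ 2 = ENNReal.ofReal ((108 / 1000) ^ 2) := by
      rw [z2, ← ENNReal.ofReal_pow (by norm_num)]
    have f3 : z2 ^ 3 = ENNReal.ofReal ((108 / 1000) ^ 3) := by
      rw [z2, ← ENNReal.ofReal_pow (by norm_num)]
    have g1 : 1 + 4 * z2 + 12 * z2 ^ 2 + 36 * z2 ^ 3 = ENNReal.ofReal
        (1 + 4 * (108 / 1000) + 12 * (108 / 1000) ^ 2 + 36 * (108 / 1000) ^ 3) := by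
      rw [f2, f3, z2, e1, e4, e12, e36, ← ENNReal.ofReal_mul (by norm_num),
        ← ENNReal.ofReal_mul (by norm_num), ← ENNReal.ofReal_mul (by norm_num),
        ← ENNReal.ofReal_add (by norm_num) (by norm_num),
        ← ENNReal.ofReal_add (by norm_num) (by norm_num),
        ← ENNReal.ofReal_add (by norm_num) (by norm_num)]
    have g2 : 1 + 2 * z2 + 2 * z2 ^ 2 + 2 * z2 ^ 3 = ENNReal.ofReal
        (1 + 2 * (108 / 1000) + 2 * (108 / 1000) ^ 2 + 2 * (108 / 1000) ^ 3) := by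
      rw [f2, f3, z2, e1, e2, ← ENNReal.ofReal_mul (by norm_num),
        ← ENNReal.ofReal_mul (by norm_num), ← ENNReal.ofReal_mul (by norm_num),
        ← ENNReal.ofReal_add (by norm_num) (by norm_num),
        ← ENNReal.ofReal_add (by norm_num) (by norm_num),
        ← ENNReal.ofReal_add (by norm_num) (by norm_num)]
    rw [g1, g2, e2, ← ENNReal.ofReal_mul (by norm_num)]
    exact ENNReal.ofReal_le_ofReal (by norm_num)
  rw [← h, ← one_add_one_eq_two] at h1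
  exact (ENNReal.add_le_add_iff_left ENNReal.one_ne_top).1 h1

/-- The growth rate of `G`. -/
theorem growth_G : z2⁻¹ ≤ growth A ⊤ := le_growth z2_pos z2_lt (series_top mw_z2)

/-- The growth rate of the subgroups meeting the conjugates of the factors trivially. -/
theorem growth_H (H : Subgroup GG)
    (hH : ∀ (i : Bool) (g : GG) (k : KK), g * ι i k * g⁻¹ ∈ H → k = 1) : growth A H ≤ z1⁻¹ := by
  refine growth_le z1_pos z1_lt.le (C := 2 * (1 - ENNReal.ofReal (997 / 1000))⁻¹) ?_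
    (series_le H hH (z1_lt.trans ENNReal.one_lt_top).ne mw_z1)
  refine ENNReal.mul_ne_top (by norm_num) (ENNReal.inv_ne_top.2 (tsub_pos_of_lt ?_).ne')
  rw [← ENNReal.ofReal_one]
  exact (ENNReal.ofReal_lt_ofReal_iff one_pos).2 (by norm_num)

theorem z_lt : z1⁻¹ < z2⁻¹ := ENNReal.inv_lt_inv.2 z2_lt_z1

end Pool.Agent.TH98.GS
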