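import Pool.Agent.H659R3.MorseLim.FreeProd
import Pool.Agent.TH98.GS.Free2

/-! # The group `(F₂ × ℤ) * (F₂ × ℤ)` and its word length -/

set_option autoImplicit false

namespace Pool.Agent.TH98.GS

open Pool.Agent.H659R3 Pool.Agent.H659R3.MorseLim Monoid Monoid.CoprodI

/-- The factor `F₂ × ℤ`. -/
abbrev KK : Type := F2 × Multiplicative ℤ

/-- The group `G = (F₂ × ℤ) * (F₂ × ℤ)`. -/
abbrev GG : Type := FP KK

/-- The length of an element of `F₂ × ℤ`. -/
def kl (k : KK) : ℕ := k.1.norm + (Multiplicative.toAdd k.2).natAbs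

@[simp] theorem kl_one : kl 1 = 0 := rfl

theorem kl_eq_zero {k : KK} : kl k = 0 ↔ k = 1 := by
  constructor
  · intro h
    rw [kl, Nat.add_eq_zero_iff] at h
    refine Prod.ext (FreeGroup.norm_eq_zero.1 h.1) ?_
    have := Int.natAbs_eq_zero.1 h.2
    exact this
  · rintro rfl; rfl

theorem kl_mul_le (k k' : KK) : kl (k * k') ≤ kl k + kl k' := by
  have h1 := FreeGroup.norm_mul_le k.1 k'.1
  have h2 := Int.natAbs_add_le (Multiplicative.toAdd k.2) (Multiplicative.toAdd k'.2)
  rw [kl, kl, kl]
  change (k.1 * k'.1).norm + (Multiplicative.toAdd k.2 + Multiplicative.toAdd k'.2).natAbs ≤ _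
  omega

theorem kl_inv (k : KK) : kl k⁻¹ = kl k := by
  rw [kl, kl]
  change (k.1⁻¹).norm + (-(Multiplicative.toAdd k.2)).natAbs = _
  rw [FreeGroup.norm_inv_eq, Int.natAbs_neg]

/-- The standard generators of `F₂ × ℤ`. -/
def gK : Set KK := {(FreeGroup.of true, 1), (FreeGroup.of false, 1), (1, Multiplicative.ofAdd 1)}

theorem gK_finite : gK.Finite := by
  simp [gK]

theorem kl_gK {k : KK} (hk : k ∈ gK) : kl k = 1 := by
  rcases hk with rfl | rfl | rfl <;> rfl

theorem gK_gen : Subgroup.closure gK = ⊤ := by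
  rw [eq_top_iff]
  rintro ⟨w, n⟩ _
  have h1 : ((w, 1) : KK) ∈ Subgroup.closure gK := by
    have hw : w ∈ Subgroup.closure (Set.range (FreeGroup.of : Bool → F2)) := by
      rw [FreeGroup.closure_range_of]; trivial
    have h2 : (MonoidHom.inl F2 (Multiplicative ℤ)) w ∈
        (Subgroup.closure (Set.range (FreeGroup.of : Bool → F2))).map
          (MonoidHom.inl F2 (Multiplicative ℤ)) := ⟨w, hw, rfl⟩
    rw [MonoidHom.map_closure] at h2
    refine Subgroup.closure_mono ?_ h2
    rintro _ ⟨_, ⟨b, rfl⟩, rfl⟩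
    cases b
    · exact Or.inr (Or.inl rfl)
    · exact Or.inl rfl
  have h3 : ((1, n) : KK) ∈ Subgroup.closure gK := by
    have e : ((1, n) : KK) = ((1, Multiplicative.ofAdd 1) : KK) ^ (Multiplicative.toAdd n) := by
      refine Prod.ext ?_ ?_
      · change (1 : F2) = (1 : F2) ^ (Multiplicative.toAdd n)
        rw [one_zpow]
      · change n = (Multiplicative.ofAdd (1 : ℤ)) ^ (Multiplicative.toAdd n)
        rw [← ofAdd_zsmul]; simp
    have hc : ((1, Multiplicative.ofAdd 1) : KK) ∈ gK := Or.inr (Or.inr rfl)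
    rw [e]
    exact zpow_mem (Subgroup.subset_closure hc) _
  have e : ((w, n) : KK) = ((w, 1) : KK) * ((1, n) : KK) := by simp
  rw [e]
  exact mul_mem h1 h3

/-- The standard generating set of `G`. -/
def A : FinGen GG where
  S := ⋃ i : Bool, (ι i) '' gK
  finite := Set.finite_iUnion fun i => gK_finite.image _
  gen := by
    rw [eq_top_iff]
    intro g _
    induction g using CoprodI.induction_on with
    | one => exact one_mem _
    | of i m =>
      have hm : m ∈ Subgroup.closure gK := by rw [gK_gen]; trivial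
      have h1 : ι i m ∈ (Subgroup.closure gK).map (ι i) := ⟨m, hm, rfl⟩
      rw [MonoidHom.map_closure] at h1
      exact Subgroup.closure_mono (Set.subset_iUnion (fun i : Bool => (ι i) '' gK) i) h1
    | mul x y hx hy => exact mul_mem (hx trivial) (hy trivial)

theorem mem_A {i : Bool} {k : KK} (hk : k ∈ gK) : ι i k ∈ A.S := Set.mem_iUnion.2 ⟨i, k, hk, rfl⟩

theorem exists_of_mem_A {x : GG} (hx : x ∈ A.S) : ∃ (i : Bool) (k : KK), k ∈ gK ∧ x = ι i k := by
  obtain ⟨i, k, hk, rfl⟩ := Set.mem_iUnion.1 hx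
  exact ⟨i, k, hk, rfl⟩

theorem factorGen : FactorGen A := by
  intro x hx
  obtain ⟨i, k, -, rfl⟩ := exists_of_mem_A hx
  exact ⟨i, k, rfl⟩

/-- The sum of the lengths of the letters of a list. -/
def ll (l : List (Σ _ : Bool, KK)) : ℕ := (l.map fun x => kl x.2).sum

@[simp] theorem ll_nil : ll [] = 0 := rfl

@[simp] theorem ll_cons (x : Σ _ : Bool, KK) (l : List (Σ _ : Bool, KK)) :
    ll (x :: l) = kl x.2 + ll l := by simp [ll]

theorem ll_append (l l' : List (Σ _ : Bool, KK)) : ll (l ++ l') = ll l + ll l' := by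
  simp [ll]

theorem ll_wd_mul_le (i : Bool) (k : KK) (g : GG) : ll (wd (ι i k * g)) ≤ kl k + ll (wd g) := by
  obtain ⟨p, t, -, -, -, hw⟩ := exists_pair g i
  have h1 := hw 1
  rw [map_one, one_mul, one_mul] at h1
  rw [hw k, h1]
  have h2 := kl_mul_le k p
  split_ifs with h3 h4 h4
  · omega
  · rw [ll_cons]; omega
  · subst h4; rw [ll_cons]; simp
  · rw [ll_cons, ll_cons]; simp only; omega

theorem len_K_le (i : Bool) (k : KK) : A.len (ι i k) ≤ kl k := by
  obtain ⟨w, n⟩ := k
  have h1 : ∀ l : List (Bool × Bool), A.len (ι i ((FreeGroup.mk l, 1) : KK)) ≤ l.length := by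
    intro l
    induction l with
    | nil =>
      have : ((FreeGroup.mk [], 1) : KK) = 1 := rfl
      rw [this, map_one]; simp
    | cons x l ih =>
      have e : ((FreeGroup.mk (x :: l), 1) : KK) = (lt x, 1) * (FreeGroup.mk l, 1) := by
        refine Prod.ext ?_ ?_
        · change FreeGroup.mk (x :: l) = lt x * FreeGroup.mk l
          rw [lt, FreeGroup.mul_mk]; rfl
        · simp
      rw [e, map_mul]
      have h2 := A.len_mul_le (ι i ((lt x, 1) : KK)) (ι i ((FreeGroup.mk l, 1) : KK))
      have h3 : A.len (ι i ((lt x, 1) : KK)) ≤ 1 := by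
        have hb : ∀ b : Bool, A.len (ι i ((FreeGroup.of b, 1) : KK)) ≤ 1 := by
          intro b
          refine A.len_gen (Or.inl (mem_A ?_))
          cases b
          · exact Or.inr (Or.inl rfl)
          · exact Or.inl rfl
        obtain ⟨a, b⟩ := x
        cases b
        · have e2 : ((lt (a, false), 1) : KK) = ((FreeGroup.of a, 1) : KK)⁻¹ := by
            refine Prod.ext ?_ ?_
            · change lt (a, false) = (FreeGroup.of a)⁻¹
              have := lt_inv (a, true)
              exact this.symm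
            · simp
          rw [e2, map_inv, A.len_inv]
          exact hb a
        · exact hb a
      rw [List.length_cons]
      omega
  have h2 : A.len (ι i ((1, n) : KK)) ≤ (Multiplicative.toAdd n).natAbs := by
    have hnat : ∀ m : ℕ, A.len ((ι i ((1, Multiplicative.ofAdd 1) : KK)) ^ m) ≤ m := by
      intro m
      induction m with
      | zero => simp
      | succ m ih =>
        rw [pow_succ]
        have h1 := A.len_mul_le ((ι i ((1, Multiplicative.ofAdd 1) : KK)) ^ m)
          (ι i ((1, Multiplicative.ofAdd 1) : KK))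
        have h2 : A.len (ι i ((1, Multiplicative.ofAdd 1) : KK)) ≤ 1 :=
          A.len_gen (Or.inl (mem_A (Or.inr (Or.inr rfl))))
        omega
    have e : ((1, n) : KK) = ((1, Multiplicative.ofAdd 1) : KK) ^ (Multiplicative.toAdd n) := by
      refine Prod.ext ?_ ?_
      · change (1 : F2) = (1 : F2) ^ (Multiplicative.toAdd n)
        rw [one_zpow]
      · change n = (Multiplicative.ofAdd (1 : ℤ)) ^ (Multiplicative.toAdd n)
        rw [← ofAdd_zsmul]; simp
    rw [e, map_zpow]
    rcases Int.eq_nat_or_neg (Multiplicative.toAdd n) with ⟨m, h | h⟩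
    · rw [h, zpow_natCast, Int.natAbs_natCast]
      exact hnat m
    · rw [h, zpow_neg, A.len_inv, zpow_natCast, Int.natAbs_neg, Int.natAbs_natCast]
      exact hnat m
  have e : ((w, n) : KK) = ((w, 1) : KK) * ((1, n) : KK) := by simp
  rw [e, map_mul]
  have h3 := A.len_mul_le (ι i ((w, 1) : KK)) (ι i ((1, n) : KK))
  have h4 := h1 w.toWord
  rw [FreeGroup.mk_toWord] at h4
  have e2 : kl ((w, 1) * (1, n) : KK) = w.toWord.length + (Multiplicative.toAdd n).natAbs := by
    rw [← e]; rfl
  rw [e2]
  omega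

theorem len_lp_le (l : List (Σ _ : Bool, KK)) : A.len (MorseLim.lp l) ≤ ll l := by
  induction l with
  | nil => simp [MorseLim.lp]
  | cons x l ih =>
    rw [lp_cons, ll_cons]
    have h1 := A.len_mul_le (ι x.1 x.2) (MorseLim.lp l)
    have h2 := len_K_le x.1 x.2
    omega

/-- The word length is the sum of the lengths of the syllables. -/
theorem len_eq (g : GG) : A.len g = ll (wd g) := by
  apply le_antisymm
  · have := len_lp_le (wd g)
    rwa [lp_wd] at this
  · obtain ⟨l, h1, h2, h3⟩ := A.len_spec g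
    rw [← h1, ← h3]
    clear h1 h3
    induction l with
    | nil => simp [wd_one]
    | cons s l ih =>
      rw [List.prod_cons, List.length_cons]
      have ih' := ih (fun x hx => h2 x (List.mem_cons_of_mem _ hx))
      obtain ⟨i, k, hk, rfl⟩ : ∃ (i : Bool) (k : KK), kl k = 1 ∧ s = ι i k := by
        rcases h2 s (by simp) with h | h
        · obtain ⟨i, k, hk, rfl⟩ := exists_of_mem_A h
          exact ⟨i, k, kl_gK hk, rfl⟩
        · obtain ⟨i, k, hk, hs⟩ := exists_of_mem_A h
          exact ⟨i, k⁻¹, by rw [kl_inv, kl_gK hk], by rw [map_inv, ← hs, inv_inv]⟩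
      have := ll_wd_mul_le i k l.prod
      omega

theorem len_ι (i : Bool) (k : KK) : A.len (ι i k) = kl k := by
  rw [len_eq]
  by_cases hk : k = 1
  · rw [hk, map_one, wd_one]; rfl
  · rw [wd_ι hk]; simp

end Pool.Agent.TH98.GS
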