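import Pool.Agent.TH98.GS.Syll

/-! # The Morse local-to-global property of `(F₂ × ℤ) * (F₂ × ℤ)` -/

set_option autoImplicit false

namespace Pool.Agent.TH98.GS

open Pool.Agent.H659R3 Pool.Agent.H659R3.MorseLim Monoid Monoid.CoprodI

/-- The gauge of sets containing chains of cut points with gaps at most `B`. -/
noncomputable def chainGauge (B lam eps : ℝ) : ℝ :=
  lam * (lam * (2 * (lam + eps) + |B| + eps)) + eps + (lam + eps)

/-- A quasi-geodesic between the ends of a chain of cut points stays close to the chain. -/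
theorem morse_of_chain {lam eps a b B : ℝ} {q : ℝ → GG} (hlam : 1 ≤ lam) (heps : 0 ≤ eps)
    (hab : a ≤ b) (hq : QG A lam eps (Set.Icc a b) q) {w : ℕ → GG} {N : ℕ} (hN : 1 ≤ N)
    (hw0 : w 0 = q a) (hwN : w N = q b)
    (hb : ∀ i, i + 2 ≤ N → Btw (w i) (w (i + 1)) (w (i + 2)))
    (hB : ∀ i < N, (A.dist (w i) (w (i + 1)) : ℝ) ≤ B) {x : ℝ} (hx : x ∈ Set.Icc a b) :
    ∃ i ≤ N, (A.dist (q x) (w i) : ℝ) ≤ chainGauge B lam eps := by
  have hc := btw_chain hb N le_rfl
  have hex : ∀ i, 0 < i → i < N → ∃ c ∈ Set.Icc a b, (A.dist (q c) (w i) : ℝ) ≤ lam + eps := by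
    intro i hi hiN
    obtain ⟨j, rfl⟩ : ∃ j, i = j + 1 := ⟨i - 1, by omega⟩
    have := hc j hiN
    rw [hw0, hwN] at this
    exact crossing' hlam hab hq this
  choose! c hc1 hc2 using hex
  have hN0 : N ≠ 0 := by omega
  refine connect (D := lam + eps) (b0 := B) hlam hq (w := w) (N := N)
    (c := fun j => if j = 0 then a else if j = N then b else c j) (by simp) (by simp [hN0])
    ?_ ?_ hB hx heps
  · intro j hj
    split_ifs
    · exact ⟨le_rfl, hab⟩
    · exact ⟨hab, le_rfl⟩
    · exact hc1 j (by omega) (by omega)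
  · intro j hj
    split_ifs with h1 h2
    · rw [h1, hw0, FinGen.dist_self]; push_cast; linarith
    · rw [h2, hwN, FinGen.dist_self]; push_cast; linarith
    · exact hc2 j (by omega) (by omega)

/-- The distance of a Morse quasi-geodesic to the cut points. -/
noncomputable def DD (M : ℝ → ℝ → ℝ) (lam eps : ℝ) : ℝ := chainGauge (KB M lam eps) lam eps

theorem DD_nonneg (M : ℝ → ℝ → ℝ) {lam eps : ℝ} (hlam : 1 ≤ lam) (heps : 0 ≤ eps) :
    0 ≤ DD M lam eps := by
  rw [DD, chainGauge]
  have := abs_nonneg (KB M lam eps)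
  positivity

/-- A point of a Morse quasi-geodesic far from the ends is close to a cut point between the
ends. -/
theorem local_cut {M : ℝ → ℝ → ℝ} {lam eps a b : ℝ} {γ : ℝ → GG} (hlam : 1 ≤ lam)
    (heps : 0 ≤ eps) (hab : a ≤ b) (hγ : MorseQG A M lam eps (Set.Icc a b) γ) {t : ℝ}
    (ht : t ∈ Set.Icc a b) (h1 : DD M lam eps < A.dist (γ t) (γ a))
    (h2 : DD M lam eps < A.dist (γ t) (γ b)) :
    ∃ w, Btw (γ a) w (γ b) ∧ (A.dist (γ t) w : ℝ) ≤ DD M lam eps := by
  have hq := hγ.1
  obtain ⟨l, hl⟩ : ∃ l, l = wd ((γ a)⁻¹ * γ b) := ⟨_, rfl⟩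
  have e : γ b = γ a * MorseLim.lp l := by rw [hl, lp_wd]; group
  have hr : Red l := by rw [hl]; exact wd_red _
  have hlne : l ≠ [] := by
    intro h
    have hab' : γ b = γ a := by
      rw [e, h]
      have : MorseLim.lp ([] : List (Σ _ : Bool, KK)) = 1 := rfl
      rw [this, mul_one]
    have q1 := (hq a ⟨le_rfl, hab⟩ b ⟨hab, le_rfl⟩).1
    have q2 := (hq t ht a ⟨le_rfl, hab⟩).2
    rw [hab', FinGen.dist_self, abs_sub_comm, abs_of_nonneg (by linarith)] at q1
    rw [abs_of_nonneg (by linarith [ht.1])] at q2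
    have q3 : b - a ≤ lam * eps := by
      have : (b - a) / lam ≤ eps := by push_cast at q1; linarith
      rwa [div_le_iff₀ (by linarith), mul_comm] at this
    have q4 : lam * (t - a) ≤ lam * (lam * eps) :=
      mul_le_mul_of_nonneg_left (by linarith [ht.2]) (by linarith)
    have q5 : lam * (lam * eps) ≤ lam * (lam * (2 * (lam + eps) + |KB M lam eps| + eps)) := by
      have := abs_nonneg (KB M lam eps)
      gcongr
      linarith
    rw [DD, chainGauge] at h1
    linarith
  obtain ⟨n, hn⟩ : ∃ n, n = l.length := ⟨_, rfl⟩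
  have hn0 : n ≠ 0 := by
    intro h
    rw [hn] at h
    exact hlne (List.length_eq_zero_iff.1 h)
  have hex : ∀ j, ∃ c ∈ Set.Icc a b,
      (A.dist (γ c) (γ a * MorseLim.lp (l.take j)) : ℝ) ≤ lam + eps := by
    intro j
    exact near_vertex hlam heps hab hq (l2 := l.drop j) (by rw [← hl, List.take_append_drop])
  choose c hc1 hc2 using hex
  have w0 : γ a * MorseLim.lp (l.take 0) = γ a := by
    have : MorseLim.lp (l.take 0) = 1 := rfl
    rw [this, mul_one]
  have wn : γ a * MorseLim.lp (l.take n) = γ b := by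
    rw [hn, List.take_length, e]
  obtain ⟨j, hj, hdj⟩ := connect (D := lam + eps) (b0 := KB M lam eps) hlam hq
    (w := fun j => γ a * MorseLim.lp (l.take j)) (N := n)
    (c := fun j => if j = 0 then a else if j = n then b else c j) (by simp) (by simp [hn0])
    (by
      intro j hj
      split_ifs
      · exact ⟨le_rfl, hab⟩
      · exact ⟨hab, le_rfl⟩
      · exact hc1 j)
    (by
      intro j hj
      split_ifs with h3 h4
      · simp only [h3]
        rw [w0, FinGen.dist_self]; push_cast; linarith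
      · simp only [h4]
        rw [wn, FinGen.dist_self]; push_cast; linarith
      · exact hc2 j)
    (by
      intro j hj
      rw [hn] at hj
      have e3 : l = l.take j ++ l[j] :: l.drop (j + 1) := by
        rw [List.getElem_cons_drop, List.take_append_drop]
      have e4 : l.take (j + 1) = l.take j ++ [l[j]] := (List.take_append_getElem hj).symm
      simp only [e4, lp_append, lp_singleton]
      have e5 : γ a * (MorseLim.lp (l.take j) * ι l[j].1 l[j].2) =
        (γ a * MorseLim.lp (l.take j)) * ι l[j].1 l[j].2 := by rw [mul_assoc]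
      rw [e5]
      have e6 := dist_coset (γ a * MorseLim.lp (l.take j)) l[j].1 1 l[j].2
      rw [map_one, mul_one, inv_one, one_mul] at e6
      rw [e6]
      exact syll_bound hlam heps hab hγ (i := l[j].1) (k := l[j].2) (by rw [← hl]; exact e3))
    ht heps
  have hdj' : (A.dist (γ t) (γ a * MorseLim.lp (l.take j)) : ℝ) ≤ DD M lam eps := hdj
  have hj0 : j ≠ 0 := by
    rintro rfl
    rw [w0] at hdj'
    linarith
  have hjn : j ≠ n := by
    rintro rfl
    rw [wn] at hdj'
    linarith
  refine ⟨_, ?_, hdj'⟩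
  have := btw_of_split (g := γ a) (l1 := l.take j) (l2 := l.drop j)
    (by rw [List.take_append_drop]; exact hr)
    (by
      intro h
      rw [List.take_eq_nil_iff] at h
      rcases h with h | h
      · exact hj0 h
      · exact hlne h)
    (by
      intro h
      rw [List.drop_eq_nil_iff] at h
      omega)
  rwa [List.take_append_drop, ← e] at this

/-- The step. -/
noncomputable def TT (M : ℝ → ℝ → ℝ) (lam eps : ℝ) : ℝ := 1 + lam * (2 * DD M lam eps + eps + 1)

/-- The gap. -/
noncomputable def BB (M : ℝ → ℝ → ℝ) (lam eps : ℝ) : ℝ :=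
  2 * DD M lam eps + (lam * (2 * TT M lam eps) + eps)

theorem exists_chain {M : ℝ → ℝ → ℝ} {lam eps : ℝ} {γ : ℝ → GG} (hlam : 1 ≤ lam)
    (heps : 0 ≤ eps) {I : Set ℝ} (hI : I.OrdConnected)
    (hγ : LocalMorseQG A (3 * TT M lam eps) M lam eps I γ) {s t : ℝ} (hs : s ∈ I) (ht : t ∈ I)
    (hst : s ≤ t) :
    ∃ (N : ℕ) (w : ℕ → GG) (c : ℕ → ℝ), 1 ≤ N ∧ w 0 = γ s ∧ w N = γ t ∧
      (∀ i ≤ N, c i ∈ Set.Icc s t ∧ (A.dist (γ (c i)) (w i) : ℝ) ≤ DD M lam eps) ∧
      (∀ i < N, (A.dist (w i) (w (i + 1)) : ℝ) ≤ BB M lam eps) ∧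
      (∀ i, i + 2 ≤ N → Btw (w i) (w (i + 1)) (w (i + 2))) ∧
      (N : ℝ) ≤ (t - s) / TT M lam eps + 1 ∧ (t - s) / TT M lam eps ≤ N + 1 := by
  have hD0 := DD_nonneg M hlam heps
  obtain ⟨D, hD⟩ : ∃ D, D = DD M lam eps := ⟨_, rfl⟩
  obtain ⟨T, hT⟩ : ∃ T, T = TT M lam eps := ⟨_, rfl⟩
  have hT' : T = 1 + lam * (2 * D + eps + 1) := by rw [hT, TT, hD]
  have hBB : BB M lam eps = 2 * D + (lam * (2 * T) + eps) := by rw [BB, hD, hT]
  rw [← hT] at hγ ⊢
  rw [hBB]
  rw [← hD] at hD0 ⊢
  have hTpos : 1 ≤ T := by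
    rw [hT']
    have : 0 ≤ lam * (2 * D + eps + 1) := by positivity
    linarith
  have hTlam : 2 * D < T / lam - eps := by
    have : (2 * D + eps + 1) ≤ T / lam := by
      rw [le_div_iff₀ (by linarith), hT', mul_comm]
      linarith
    linarith
  obtain ⟨F, hF⟩ : ∃ F, F = ⌊(t - s) / T⌋₊ := ⟨_, rfl⟩
  have hF1 : (F : ℝ) * T ≤ t - s := by
    have := Nat.floor_le (a := (t - s) / T) (div_nonneg (by linarith) (by linarith))
    rw [← hF] at this
    rwa [le_div_iff₀ (by linarith)] at this
  have hF2 : t - s < ((F : ℝ) + 1) * T := by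
    have := Nat.lt_floor_add_one ((t - s) / T)
    rw [← hF] at this
    rwa [div_lt_iff₀ (by linarith)] at this
  obtain ⟨N, hN⟩ : ∃ N, N = max 1 F := ⟨_, rfl⟩
  have hN1 : 1 ≤ N := by rw [hN]; exact le_max_left _ _
  have hNF : 2 ≤ N → N = F := by
    intro h
    rw [hN] at h ⊢
    omega
  -- the times
  set c : ℕ → ℝ := fun i => if i < N then s + i * T else t with hc
  have c0 : c 0 = s := by
    simp only [hc]
    rw [if_pos (by omega)]
    simp
  have cN : c N = t := by
    simp only [hc]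
    rw [if_neg (by omega)]
  have clt : ∀ i, i < N → c i = s + i * T := fun i hi => by simp only [hc]; rw [if_pos hi]
  have hgap : ∀ i, i < N → c i ≤ c (i + 1) ∧ c (i + 1) - c i ≤ 2 * T ∧
      (2 ≤ N → T ≤ c (i + 1) - c i) := by
    intro i hi
    rw [clt i hi]
    by_cases h : i + 1 < N
    · rw [clt _ h]
      push_cast
      refine ⟨by nlinarith, by nlinarith, fun _ => by nlinarith⟩
    · have : i + 1 = N := by omega
      rw [this, cN]
      rcases Nat.lt_or_ge N 2 with h2 | h2
      · have hi0 : i = 0 := by omega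
        have hFle : F ≤ 1 := by rw [hN] at h2; omega
        have hFle' : (F : ℝ) ≤ 1 := by exact_mod_cast hFle
        subst hi0
        push_cast
        refine ⟨by linarith, by nlinarith, fun h => by omega⟩
      · have hNF' := hNF h2
        have e : (i : ℝ) = F - 1 := by
          have : (i : ℝ) + 1 = N := by exact_mod_cast this
          rw [hNF'] at this
          linarith
        rw [e]
        refine ⟨by nlinarith, by nlinarith, fun _ => by nlinarith⟩
  have hcmem : ∀ i ≤ N, c i ∈ Set.Icc s t := by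
    have hmono : ∀ i ≤ N, s ≤ c i := by
      intro i
      induction i with
      | zero => intro _; rw [c0]
      | succ i ih =>
        intro h
        exact (ih (by omega)).trans (hgap i (by omega)).1
    have hmono' : ∀ j i, i + j = N → c i ≤ t := by
      intro j
      induction j with
      | zero => intro i h; rw [add_zero] at h; rw [h, cN]
      | succ j ih =>
        intro i h
        exact (hgap i (by omega)).1.trans (ih (i + 1) (by omega))
    intro i hi
    exact ⟨hmono i hi, hmono' (N - i) i (by omega)⟩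
  have hIcc : Set.Icc s t ⊆ I := hI.out hs ht
  -- the quasi-geodesic inequality between consecutive times
  have hstep : ∀ i, i < N → (A.dist (γ (c i)) (γ (c (i + 1))) : ℝ) ≤ lam * (2 * T) + eps ∧
      (2 ≤ N → 2 * D < (A.dist (γ (c i)) (γ (c (i + 1))) : ℝ)) := by
    intro i hi
    obtain ⟨g1, g2, g3⟩ := hgap i hi
    have hsub : Set.Icc (c i) (c (i + 1)) ⊆ Set.Icc s t :=
      Set.Icc_subset_Icc (hcmem i hi.le).1 (hcmem (i + 1) hi).2
    have := (hγ (c i) (c (i + 1)) g1 (by linarith) (hsub.trans hIcc)).1 (c i) ⟨le_rfl, g1⟩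
      (c (i + 1)) ⟨g1, le_rfl⟩
    rw [abs_sub_comm, abs_of_nonneg (by linarith)] at this
    refine ⟨this.2.trans ?_, fun h => ?_⟩
    · have : lam * (c (i + 1) - c i) ≤ lam * (2 * T) :=
        mul_le_mul_of_nonneg_left g2 (by linarith)
      linarith
    · have h1 : T / lam ≤ (c (i + 1) - c i) / lam :=
        div_le_div_of_nonneg_right (g3 h) (by linarith)
      linarith [this.1]
  -- the cut points
  have hex : ∀ j, 0 < j → j < N → ∃ w, Btw (γ (c (j - 1))) w (γ (c (j + 1))) ∧
      (A.dist (γ (c j)) w : ℝ) ≤ D := by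
    intro j hj hjN
    obtain ⟨i, rfl⟩ : ∃ i, j = i + 1 := ⟨j - 1, by omega⟩
    rw [Nat.add_sub_cancel]
    have h2N : 2 ≤ N := by omega
    obtain ⟨g1, g2, g3⟩ := hgap i (by omega)
    obtain ⟨g1', g2', g3'⟩ := hgap (i + 1) hjN
    have hs1 := (hstep i (by omega)).2 h2N
    have hs2 := (hstep (i + 1) hjN).2 h2N
    have hsub : Set.Icc (c i) (c (i + 1 + 1)) ⊆ Set.Icc s t :=
      Set.Icc_subset_Icc (hcmem i (by omega)).1 (hcmem (i + 1 + 1) hjN).2
    have hlen : c (i + 1 + 1) - c i ≤ 3 * T := by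
      -- one of the two gaps is exactly `T`
      have : c (i + 1) - c i = T := by
        rw [clt i (by omega), clt (i + 1) hjN]
        push_cast; ring
      linarith
    have hM := hγ (c i) (c (i + 1 + 1)) (g1.trans g1') hlen (hsub.trans hIcc)
    rw [hD]
    refine local_cut hlam heps (g1.trans g1') hM ⟨g1, g1'⟩ ?_ ?_
    · rw [← hD, A.dist_comm]; linarith
    · rw [← hD]; linarith
  choose! w' hw1 hw2 using hex
  set w : ℕ → GG := fun j => if j = 0 ∨ N ≤ j then γ (c j) else w' j with hw
  have hwD : ∀ i ≤ N, (A.dist (γ (c i)) (w i) : ℝ) ≤ D := by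
    intro i hi
    simp only [hw]
    split_ifs with h
    · simpa using hD0
    · exact hw2 i (by omega) (by omega)
  refine ⟨N, w, c, hN1, ?_, ?_, fun i hi => ⟨hcmem i hi, hwD i hi⟩, ?_, ?_, ?_, ?_⟩
  · simp [hw, c0]
  · simp [hw, cN]
  · intro i hi
    have h1 := hwD i hi.le
    have h2 := hwD (i + 1) hi
    have h3 := (hstep i hi).1
    have t1 := A.dist_triangle (w i) (γ (c i)) (w (i + 1))
    have t2 := A.dist_triangle (γ (c i)) (γ (c (i + 1))) (w (i + 1))
    rw [A.dist_comm (w i) (γ (c i))] at t1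
    have t3 : (A.dist (w i) (w (i + 1)) : ℝ) ≤ A.dist (γ (c i)) (w i) +
        A.dist (γ (c i)) (γ (c (i + 1))) + A.dist (γ (c (i + 1))) (w (i + 1)) := by
      exact_mod_cast (by omega : A.dist (w i) (w (i + 1)) ≤ A.dist (γ (c i)) (w i) +
        A.dist (γ (c i)) (γ (c (i + 1))) + A.dist (γ (c (i + 1))) (w (i + 1)))
    linarith
  · intro i hi
    have e : w (i + 1) = w' (i + 1) := by
      simp only [hw]
      rw [if_neg (by omega)]
    have h1 := hw1 (i + 1) (by omega) (by omega)
    have h2 := hw2 (i + 1) (by omega) (by omega)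
    rw [Nat.add_sub_cancel] at h1
    have hs1 := (hstep i (by omega)).2 (by omega)
    have hs2 := (hstep (i + 1) (by omega)).2 (by omega)
    have d1 := hwD i (by omega)
    have d2 := hwD (i + 2) hi
    rw [e]
    have h3 : Btw (w i) (w' (i + 1)) (γ (c (i + 2))) := by
      refine h1.switch factorGen ?_
      have t1 := A.dist_triangle (γ (c i)) (w' (i + 1)) (γ (c (i + 1)))
      rw [A.dist_comm (w' (i + 1))] at t1
      have t1' : (A.dist (γ (c i)) (γ (c (i + 1))) : ℝ) ≤ A.dist (γ (c i)) (w' (i + 1)) +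
          A.dist (γ (c (i + 1))) (w' (i + 1)) := by exact_mod_cast t1
      have : (A.dist (γ (c i)) (w i) : ℝ) < A.dist (γ (c i)) (w' (i + 1)) := by linarith
      exact_mod_cast this
    refine (h3.symm.switch factorGen ?_).symm
    have t1 := A.dist_triangle (γ (c (i + 2))) (w' (i + 1)) (γ (c (i + 1)))
    rw [A.dist_comm (w' (i + 1)), A.dist_comm (γ (c (i + 2))) (γ (c (i + 1)))] at t1
    have t1' : (A.dist (γ (c (i + 1))) (γ (c (i + 2))) : ℝ) ≤ A.dist (γ (c (i + 2))) (w' (i + 1)) +
        A.dist (γ (c (i + 1))) (w' (i + 1)) := by exact_mod_cast t1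
    have : (A.dist (γ (c (i + 2))) (w (i + 2)) : ℝ) < A.dist (γ (c (i + 2))) (w' (i + 1)) := by
      linarith
    exact_mod_cast this
  · have h1 : (F : ℝ) ≤ (t - s) / T := by rwa [le_div_iff₀ (by linarith)]
    have h2 : 0 ≤ (t - s) / T := div_nonneg (by linarith) (by linarith)
    rw [hN]
    rcases le_total 1 F with h | h
    · rw [max_eq_right h]; linarith
    · rw [max_eq_left h]; push_cast; linarith
  · have h1 : (t - s) / T < F + 1 := by rwa [div_lt_iff₀ (by linarith)]
    have h2 : (F : ℝ) ≤ N := by rw [hN]; exact_mod_cast le_max_right 1 F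
    linarith

theorem dist_le_sum {w : ℕ → GG} {N : ℕ} {B : ℝ}
    (hB : ∀ i < N, (A.dist (w i) (w (i + 1)) : ℝ) ≤ B) :
    ∀ n ≤ N, (A.dist (w 0) (w n) : ℝ) ≤ n * B := by
  intro n
  induction n with
  | zero => intro _; simp
  | succ n ih =>
    intro hn
    have h1 := ih (by omega)
    have h2 := hB n hn
    have h3 : (A.dist (w 0) (w (n + 1)) : ℝ) ≤ A.dist (w 0) (w n) + A.dist (w n) (w (n + 1)) := by
      exact_mod_cast A.dist_triangle _ _ _
    push_cast
    linarith

/-- `G` has the Morse local-to-global property. -/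
theorem mltg : MorseLocalToGlobal A := by
  intro M lam eps hlam heps
  have hD0 := DD_nonneg M hlam heps
  have hT1 : 1 ≤ TT M lam eps := by
    rw [TT]
    have : 0 ≤ lam * (2 * DD M lam eps + eps + 1) := by positivity
    linarith
  have hB0 : 0 ≤ BB M lam eps := by
    rw [BB]
    positivity
  refine ⟨3 * TT M lam eps, fun lam1 eps1 => chainGauge (BB M lam eps) lam1 eps1 + DD M lam eps,
    TT M lam eps + BB M lam eps, BB M lam eps + 2, by linarith, by linarith, by linarith, ?_⟩
  intro I hI γ hγ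
  constructor
  · -- the quasi-geodesic inequalities
    have key : ∀ s ∈ I, ∀ t ∈ I, s ≤ t →
        (t - s) / (TT M lam eps + BB M lam eps) - (BB M lam eps + 2) ≤
          (A.dist (γ s) (γ t) : ℝ) ∧
        (A.dist (γ s) (γ t) : ℝ) ≤ (TT M lam eps + BB M lam eps) * (t - s) +
          (BB M lam eps + 2) := by
      intro s hs t ht hst
      obtain ⟨N, w, c, hN, hw0, hwN, -, hB, hb, hN1, hN2⟩ := exists_chain hlam heps hI hγ hs ht hst
      constructor
      · have h1 := dist_chain factorGen hb N le_rfl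
        rw [hw0, hwN] at h1
        have h2 : (N : ℝ) ≤ A.dist (γ s) (γ t) + 1 := by exact_mod_cast h1
        have h3 : (t - s) / (TT M lam eps + BB M lam eps) ≤ (t - s) / TT M lam eps :=
          div_le_div_of_nonneg_left (by linarith) (by linarith) (by linarith)
        linarith
      · have h1 := dist_le_sum hB N le_rfl
        rw [hw0, hwN] at h1
        have h2 : (t - s) / TT M lam eps ≤ t - s := div_le_self (by linarith) hT1
        have h3 : (N : ℝ) * BB M lam eps ≤ ((t - s) + 1) * BB M lam eps :=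
          mul_le_mul_of_nonneg_right (by linarith) hB0
        nlinarith
    intro s hs t ht
    rcases le_total s t with hst | hst
    · rw [abs_sub_comm, abs_of_nonneg (by linarith)]
      exact key s hs t ht hst
    · rw [abs_of_nonneg (by linarith), A.dist_comm]
      exact key t ht s hs hst
  · -- the Morse property
    have key : ∀ lam1 eps1 a b : ℝ, 1 ≤ lam1 → 0 ≤ eps1 → a ≤ b → ∀ q : ℝ → GG,
        QG A lam1 eps1 (Set.Icc a b) q → ∀ s ∈ I, ∀ t ∈ I, s ≤ t → γ s = q a → γ t = q b →
        ∀ x ∈ Set.Icc a b, ∃ y ∈ γ '' I,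
          (A.dist (q x) y : ℝ) ≤ chainGauge (BB M lam eps) lam1 eps1 + DD M lam eps := by
      intro lam1 eps1 a b hlam1 heps1 hab q hq s hs t ht hst hsa htb x hx
      obtain ⟨N, w, c, hN, hw0, hwN, hcD, hB, hb, hN1, hN2⟩ :=
        exists_chain hlam heps hI hγ hs ht hst
      obtain ⟨i, hi, hd⟩ := morse_of_chain hlam1 heps1 hab hq hN (hw0.trans hsa) (hwN.trans htb)
        hb hB hx
      obtain ⟨h1, h2⟩ := hcD i hi
      refine ⟨γ (c i), ⟨c i, hI.out hs ht h1, rfl⟩, ?_⟩
      have t1 := A.dist_triangle (q x) (w i) (γ (c i))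
      rw [A.dist_comm (w i)] at t1
      have t2 : (A.dist (q x) (γ (c i)) : ℝ) ≤ A.dist (q x) (w i) + A.dist (γ (c i)) (w i) := by
        exact_mod_cast t1
      linarith
    intro lam1 eps1 a b hlam1 heps1 hab q hq ha hb x hx
    obtain ⟨s, hs, hsa⟩ := ha
    obtain ⟨t, ht, htb⟩ := hb
    rcases le_total s t with hst | hst
    · exact key lam1 eps1 a b hlam1 heps1 hab q hq s hs t ht hst hsa htb x hx
    · have := key lam1 eps1 a b hlam1 heps1 hab _ hq.reverse t ht s hs hst
        (by rw [htb]; congr 1; ring) (by rw [hsa]; congr 1; ring) (a + b - x)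
        ⟨by linarith [hx.2], by linarith [hx.1]⟩
      have e : a + b - (a + b - x) = x := by ring
      rw [e] at this
      exact this

end Pool.Agent.TH98.GS
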