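import Pool.Agent.TH98.GS.Series

/-! # The Schur test for a free action of `F₂ × ℤ` -/

set_option autoImplicit false

namespace Pool.Agent.TH98.GS

open scoped ENNReal
open Pool.Agent.H659R3 Pool.Agent.H659R3.MorseLim

theorem two_mul_le_sq (a b : ℝ≥0∞) : 2 * (a * b) ≤ a ^ 2 + b ^ 2 := by
  wlog h : a ≤ b generalizing a b
  · have := this b a (le_of_not_ge h)
    rw [mul_comm a b, add_comm]; exact this
  obtain ⟨c, rfl⟩ := exists_add_of_le h
  calc 2 * (a * (a + c)) ≤ 2 * (a * (a + c)) + c ^ 2 := le_self_add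
    _ = a ^ 2 + (a + c) ^ 2 := by ring

/-- The Cauchy–Schwarz inequality. -/
theorem cauchy {α : Type} (a b : α → ℝ≥0∞) :
    (∑' k, a k * b k) ^ 2 ≤ (∑' k, a k ^ 2) * ∑' k, b k ^ 2 := by
  have h1 : (∑' k, a k * b k) ^ 2 = ∑' k, ∑' j, (a k * b k) * (a j * b j) := by
    rw [sq, ← ENNReal.tsum_mul_right]
    congr 1
    funext k
    rw [← ENNReal.tsum_mul_left]
  have h2 : (∑' k, a k ^ 2) * (∑' k, b k ^ 2) = ∑' k, ∑' j, a k ^ 2 * b j ^ 2 := by
    rw [← ENNReal.tsum_mul_right]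
    congr 1
    funext k
    rw [← ENNReal.tsum_mul_left]
  have h3 : (∑' k, a k ^ 2) * (∑' k, b k ^ 2) = ∑' k, ∑' j, a j ^ 2 * b k ^ 2 := by
    rw [h2, ENNReal.tsum_comm]
  have h4 : 2 * (∑' k, a k * b k) ^ 2 ≤ 2 * ((∑' k, a k ^ 2) * ∑' k, b k ^ 2) := by
    calc 2 * (∑' k, a k * b k) ^ 2 = ∑' k, ∑' j, 2 * ((a k * b j) * (a j * b k)) := by
          rw [h1, ← ENNReal.tsum_mul_left]
          congr 1
          funext k
          rw [← ENNReal.tsum_mul_left]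
          congr 1
          funext j
          ring
      _ ≤ ∑' k, ∑' j, ((a k * b j) ^ 2 + (a j * b k) ^ 2) :=
          ENNReal.tsum_le_tsum fun k => ENNReal.tsum_le_tsum fun j => two_mul_le_sq _ _
      _ = 2 * ((∑' k, a k ^ 2) * ∑' k, b k ^ 2) := by
          rw [two_mul]
          nth_rw 1 [h2]
          rw [h3, ← ENNReal.tsum_add]
          congr 1
          funext k
          rw [← ENNReal.tsum_add]
          congr 1
          funext j
          ring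
  have h5 := (ENNReal.mul_le_mul_iff_right (a := 2) (by norm_num) (by norm_num)).1 h4
  exact h5

theorem sqrt_sq (x : ℝ≥0∞) : (x ^ (1 / 2 : ℝ)) ^ 2 = x := by
  rw [← ENNReal.rpow_natCast, ← ENNReal.rpow_mul]; norm_num

theorem sq_sqrt (x : ℝ≥0∞) : (x ^ 2) ^ (1 / 2 : ℝ) = x := by
  rw [← ENNReal.rpow_natCast, ← ENNReal.rpow_mul]; norm_num

theorem cauchy_weight {α : Type} (m R Q Φ : α → ℝ≥0∞) (h : ∀ k, R k * Q k = 1) :
    (∑' k, m k * Φ k) ^ 2 ≤ (∑' k, m k * R k) * ∑' k, m k * Q k * Φ k ^ 2 := by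
  have := cauchy (fun k => (m k * R k) ^ (1 / 2 : ℝ)) (fun k => (m k * Q k * Φ k ^ 2) ^ (1 / 2 : ℝ))
  simp only [sqrt_sq] at this
  refine le_trans (le_of_eq ?_) this
  congr 2
  funext k
  rw [← ENNReal.mul_rpow_of_nonneg _ _ (by norm_num : (0:ℝ) ≤ 1 / 2)]
  have e : m k * R k * (m k * Q k * Φ k ^ 2) = (m k * Φ k) ^ 2 := by
    calc m k * R k * (m k * Q k * Φ k ^ 2) = (R k * Q k) * (m k * Φ k) ^ 2 := by ring
      _ = (m k * Φ k) ^ 2 := by rw [h, one_mul]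
  rw [e, sq_sqrt]

/-- The set of the four letters of `F₂`, in `F₂ × ℤ`. -/
def IsLet (k : KK) : Prop := k.2 = 1 ∧ k.1.norm = 1

theorem isLet_iff {k : KK} : IsLet k ↔ ∃ x, k = (lt x, 1) := by
  constructor
  · rintro ⟨h1, h2⟩
    rw [FreeGroup.norm, List.length_eq_one_iff] at h2
    obtain ⟨x, hx⟩ := h2
    refine ⟨x, Prod.ext ?_ h1⟩
    change k.1 = FreeGroup.mk [x]
    rw [← hx, FreeGroup.mk_toWord]
  · rintro ⟨x, rfl⟩
    exact ⟨rfl, norm_lt x⟩

theorem isLet_inv {k : KK} : IsLet k⁻¹ ↔ IsLet k := by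
  rw [IsLet, IsLet]
  change (k.2⁻¹ = 1 ∧ (k.1⁻¹).norm = 1) ↔ _
  rw [inv_eq_one, FreeGroup.norm_inv_eq]

open Classical in
/-- The weight of the Schur test. -/
noncomputable def RR (k : KK) (w : F2) : ℝ≥0∞ :=
  if IsLet k then (if (k.1 * w).norm < w.norm then 2 else 2⁻¹) else 1

open Classical in
/-- Its inverse. -/
noncomputable def QQ (k : KK) (w : F2) : ℝ≥0∞ :=
  if IsLet k then (if (k.1 * w).norm < w.norm then 2⁻¹ else 2) else 1

theorem RQ (k : KK) (w : F2) : RR k w * QQ k w = 1 := by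
  rw [RR, QQ]
  split_ifs
  · exact ENNReal.mul_inv_cancel (by norm_num) (by norm_num)
  · exact ENNReal.inv_mul_cancel (by norm_num) (by norm_num)
  · simp

theorem QQ_inv (k : KK) (w : F2) : QQ k⁻¹ (k.1 * w) = RR k w := by
  rw [RR, QQ, isLet_inv]
  by_cases h : IsLet k
  · rw [if_pos h, if_pos h]
    have e : (k⁻¹).1 * (k.1 * w) = w := by
      change k.1⁻¹ * (k.1 * w) = w
      group
    rw [e]
    obtain ⟨x, rfl⟩ := isLet_iff.1 h
    simp only
    by_cases h' : Canc x w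
    · have := norm_of_canc h'
      rw [if_neg (by omega), if_pos (by omega)]
    · have := norm_of_not_canc h'
      rw [if_pos (by omega), if_neg (by omega)]
  · rw [if_neg h, if_neg h]

/-- The embedding of the letters. -/
def emb (x : Bool × Bool) : KK := (lt x, 1)

theorem emb_inj : Function.Injective emb := fun _ _ h => lt_injective (congrArg Prod.fst h)

theorem emb_ne (x : Bool × Bool) : emb x ≠ 1 := fun h => lt_ne_one x (congrArg Prod.fst h)

theorem kl_emb (x : Bool × Bool) : kl (emb x) = 1 := rfl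

theorem tsum_let (f : KK → ℝ≥0∞) (hf : ∀ k, ¬ IsLet k → f k = 0) :
    ∑' k, f k = ∑ x : Bool × Bool, f (emb x) := by
  have hsupp : Function.support f ⊆ Set.range emb := by
    intro k hk
    by_contra h
    apply hk
    apply hf
    intro h'
    obtain ⟨x, hx⟩ := isLet_iff.1 h'
    exact h ⟨x, hx.symm⟩
  rw [← emb_inj.tsum_eq hsupp, tsum_fintype]

theorem sum_RR (z : ℝ≥0∞) (w : F2) : (∑' k, mw z k * RR k w) + z * 2⁻¹ ≤ ∑' k, mw z k := by
  classical
  have h1 : (fun k => mw z k * RR k w) = fun k => (if IsLet k then mw z k * RR k w else 0) +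
      (if IsLet k then 0 else mw z k) := by
    funext k
    by_cases h : IsLet k
    · simp [h]
    · simp only [h, if_false, zero_add]
      rw [RR, if_neg h, mul_one]
  have h2 : (fun k => mw z k) = fun k => (if IsLet k then mw z k else 0) +
      (if IsLet k then 0 else mw z k) := by
    funext k
    by_cases h : IsLet k <;> simp [h]
  rw [h1, ENNReal.tsum_add]
  conv_rhs => rw [h2, ENNReal.tsum_add]
  rw [add_right_comm]
  refine add_le_add ?_ le_rfl
  have h0 : ∀ x, IsLet (emb x) := fun x => isLet_iff.2 ⟨x, rfl⟩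
  rw [tsum_let _ (fun k hk => by simp [hk]), tsum_let _ (fun k hk => by simp [hk])]
  simp only [h0, if_true, mw_of_ne z (emb_ne _), kl_emb, pow_one]
  have h3 : ∀ x, RR (emb x) w = if Canc x w then 2 else 2⁻¹ := by
    intro x
    rw [RR, if_pos (h0 x)]
    refine if_congr ?_ rfl rfl
    exact canc_iff.symm
  simp only [h3]
  rw [← Finset.mul_sum, Finset.sum_const, Finset.card_univ]
  have hcard : Fintype.card (Bool × Bool) = 4 := rfl
  rw [hcard, nsmul_eq_mul, mul_comm ((4 : ℕ) : ℝ≥0∞) z, ← mul_add]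
  gcongr
  have t : (2 : ℝ≥0∞) = ENNReal.ofReal 2 := by norm_num
  have t' : (2⁻¹ : ℝ≥0∞) = ENNReal.ofReal (1 / 2) := by
    rw [t, ← ENNReal.ofReal_inv_of_pos (by norm_num)]; norm_num
  by_cases hw : w = 1
  · subst hw
    rw [sum_canc_one, t']
    have e4 : (4 : ℝ≥0∞) = ENNReal.ofReal 4 := by norm_num
    push_cast
    rw [e4, ← ENNReal.ofReal_mul (by norm_num), ← ENNReal.ofReal_add (by norm_num) (by norm_num)]
    exact ENNReal.ofReal_le_ofReal (by norm_num)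
  · rw [sum_canc_two hw, t', t]
    have e4 : (4 : ℝ≥0∞) = ENNReal.ofReal 4 := by norm_num
    have e3 : (3 : ℝ≥0∞) = ENNReal.ofReal 3 := by norm_num
    push_cast
    rw [e4, e3, ← ENNReal.ofReal_mul (by norm_num), ← ENNReal.ofReal_add (by norm_num) (by norm_num),
      ← ENNReal.ofReal_add (by norm_num) (by norm_num)]
    exact ENNReal.ofReal_le_ofReal (by norm_num)

variable {Ω : Type}

theorem perm_inv_apply (e : Equiv.Perm Ω) (x : Ω) : e⁻¹ (e x) = x := e.symm_apply_apply x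

theorem perm_apply_inv (e : Equiv.Perm Ω) (x : Ω) : e (e⁻¹ x) = x := e.apply_symm_apply x

/-- An equivariant map to `F₂` for a free action. -/
theorem exists_W (ρ : KK →* Equiv.Perm Ω) (hfree : ∀ k, k ≠ 1 → ∀ ω, ρ k ω ≠ ω) :
    ∃ W : Ω → F2, ∀ k ω, k.2 = 1 → W (ρ k ω) = k.1 * W ω := by
  let φ : F2 →* Equiv.Perm Ω := ρ.comp (MonoidHom.inl F2 (Multiplicative ℤ))
  let r : Setoid Ω :=
    { r := fun ω ω' => ∃ w, φ w ω' = ω
      iseqv := ⟨fun ω => ⟨1, by rw [map_one]; rfl⟩, by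
        rintro ω ω' ⟨w, rfl⟩
        exact ⟨w⁻¹, by rw [map_inv]; exact perm_inv_apply _ _⟩, by
        rintro ω ω' ω'' ⟨w, rfl⟩ ⟨w', rfl⟩
        exact ⟨w * w', by rw [map_mul]; rfl⟩⟩ }
  have hex : ∀ ω : Ω, ∃ w, φ w (Quotient.out (Quotient.mk r ω)) = ω := by
    intro ω
    have : r (Quotient.out (Quotient.mk r ω)) ω := Quotient.mk_out ω
    obtain ⟨w, hw⟩ := r.symm this
    exact ⟨w, hw⟩
  choose W hW using hex
  refine ⟨W, fun k ω hk => ?_⟩
  have e : ρ k = φ k.1 := by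
    change ρ k = ρ (k.1, 1)
    congr 1
    exact Prod.ext rfl hk
  rw [e]
  have h1 : Quotient.mk r (φ k.1 ω) = Quotient.mk r ω := Quotient.sound ⟨k.1, rfl⟩
  have h2 := hW (φ k.1 ω)
  rw [h1] at h2
  have h3 := hW ω
  by_contra hne
  have h4 : ((W ω)⁻¹ * k.1⁻¹ * W (φ k.1 ω) : F2) ≠ 1 := by
    intro h
    apply hne
    have h5 : W (φ k.1 ω) = k.1 * W ω * ((W ω)⁻¹ * k.1⁻¹ * W (φ k.1 ω)) := by group
    rw [h, mul_one] at h5
    exact h5
  have h5 : φ ((W ω)⁻¹ * k.1⁻¹ * W (φ k.1 ω)) (Quotient.out (Quotient.mk r ω)) =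
      Quotient.out (Quotient.mk r ω) := by
    rw [map_mul, Equiv.Perm.mul_apply, h2, map_mul, Equiv.Perm.mul_apply, map_inv φ k.1,
      perm_inv_apply, map_inv, Equiv.Perm.inv_eq_iff_eq]
    exact h3.symm
  exact hfree ((W ω)⁻¹ * k.1⁻¹ * W (φ k.1 ω), 1) (fun h => h4 (congrArg Prod.fst h)) _ h5

/-- The norm estimate. -/
theorem schur (ρ : KK →* Equiv.Perm Ω) (hfree : ∀ k, k ≠ 1 → ∀ ω, ρ k ω ≠ ω) {z c : ℝ≥0∞}
    (hz : z ≠ ⊤) (hc : ∑' k, mw z k ≤ c + z * 2⁻¹) (Φ : Ω → ℝ≥0∞) :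
    ∑' ω, (∑' k, mw z k * Φ (ρ k⁻¹ ω)) ^ 2 ≤ c ^ 2 * ∑' ω, Φ ω ^ 2 := by
  obtain ⟨W, hW⟩ := exists_W ρ hfree
  have hzt : z * 2⁻¹ ≠ ⊤ := ENNReal.mul_ne_top hz (by norm_num)
  have hR : ∀ w, ∑' k, mw z k * RR k w ≤ c := by
    intro w
    have := (sum_RR z w).trans hc
    exact (ENNReal.add_le_add_iff_right hzt).1 this
  have hR' : ∀ w, ∑' k, mw z k * RR k⁻¹ w ≤ c := by
    intro w
    rw [← (Equiv.inv KK).tsum_eq]
    simp only [Equiv.inv_apply, inv_inv, mw_inv]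
    exact hR w
  calc ∑' ω, (∑' k, mw z k * Φ (ρ k⁻¹ ω)) ^ 2
      ≤ ∑' ω, c * ∑' k, mw z k * QQ k⁻¹ (W ω) * Φ (ρ k⁻¹ ω) ^ 2 := by
        refine ENNReal.tsum_le_tsum fun ω => ?_
        refine (cauchy_weight (fun k => mw z k) (fun k => RR k⁻¹ (W ω)) (fun k => QQ k⁻¹ (W ω))
          (fun k => Φ (ρ k⁻¹ ω)) (fun k => RQ _ _)).trans ?_
        gcongr
        exact hR' _
    _ = c * ∑' k, ∑' ω, mw z k * QQ k⁻¹ (W ω) * Φ (ρ k⁻¹ ω) ^ 2 := by
        rw [ENNReal.tsum_mul_left, ENNReal.tsum_comm]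
    _ = c * ∑' k, ∑' ω, mw z k * RR k (W ω) * Φ ω ^ 2 := by
        congr 2
        funext k
        rw [← (ρ k).tsum_eq]
        congr 1
        funext ω
        have e : ρ k⁻¹ (ρ k ω) = ω := by
          rw [map_inv]; exact perm_inv_apply _ _
        rw [e]
        congr 2
        by_cases hk : IsLet k
        · rw [hW k ω hk.1, QQ_inv]
        · have hk' : ¬ IsLet k⁻¹ := by rwa [isLet_inv]
          rw [QQ, RR, if_neg hk, if_neg hk']
    _ = c * ∑' ω, (∑' k, mw z k * RR k (W ω)) * Φ ω ^ 2 := by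
        rw [ENNReal.tsum_comm]
        congr 2
        funext ω
        rw [ENNReal.tsum_mul_right]
    _ ≤ c * ∑' ω, c * Φ ω ^ 2 := by
        gcongr with ω
        exact hR _
    _ = c ^ 2 * ∑' ω, Φ ω ^ 2 := by
        rw [ENNReal.tsum_mul_left, ← mul_assoc, sq]

end Pool.Agent.TH98.GS
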