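import Pool.Agent.TH98.GS.Len

/-! # The growth series of `F₂`, `ℤ` and `F₂ × ℤ` -/

set_option autoImplicit false

namespace Pool.Agent.TH98.GS

open scoped ENNReal
open Pool.Agent.H659R3 Pool.Agent.H659R3.MorseLim

/-- The opposite letter. -/
def op (x : Bool × Bool) : Bool × Bool := (x.1, !x.2)

theorem op_op (x : Bool × Bool) : op (op x) = x := by simp [op]

/-- `op` as an equivalence. -/
def opE : Bool × Bool ≃ Bool × Bool := ⟨op, op, op_op, op_op⟩

theorem sum_canc {w : F2} (hw : w ≠ 1) :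
    ∑ x : Bool × Bool, (if Canc x w then (1 : ℝ≥0∞) else 0) = 1 := by
  obtain ⟨y, hy⟩ := exists_canc hw
  simp only [hy]
  simp

/-- For every function with two values on the letters. -/
theorem sum_canc_two {w : F2} (hw : w ≠ 1) (a b : ℝ≥0∞) :
    ∑ x : Bool × Bool, (if Canc x w then a else b) = a + 3 * b := by
  obtain ⟨y, hy⟩ := exists_canc hw
  simp only [hy]
  obtain ⟨y1, y2⟩ := y
  cases y1 <;> cases y2 <;> simp [Fintype.sum_prod_type] <;> ring

theorem sum_canc_one (a b : ℝ≥0∞) :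
    ∑ x : Bool × Bool, (if Canc x 1 then a else b) = 4 * b := by
  simp only [not_canc_one, if_false]
  simp

/-- The number of elements of length `n` of `F₂`. -/
noncomputable def NF (n : ℕ) : ℝ≥0∞ := ∑' w : F2, if w.norm = n then 1 else 0

theorem NF_zero : NF 0 = 1 := by
  rw [NF]
  simp only [FreeGroup.norm_eq_zero]
  rw [tsum_ite_eq]

theorem NF_succ (n : ℕ) : NF (n + 1) = ∑' w : F2, (if w.norm = n then
    (∑ x : Bool × Bool, (if Canc x w then (0 : ℝ≥0∞) else 1)) else 0) := by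
  have h1 : NF (n + 1) = ∑' w : F2, ∑ x : Bool × Bool,
      (if w.norm = n + 1 ∧ Canc x w then (1 : ℝ≥0∞) else 0) := by
    rw [NF]
    congr 1
    funext w
    by_cases h : w.norm = n + 1
    · have hw : w ≠ 1 := by
        rintro rfl
        simp at h
      simp only [h, true_and, if_true]
      exact (sum_canc hw).symm
    · simp [h]
  have h2 : ∀ x : Bool × Bool, ∑' w : F2, (if w.norm = n + 1 ∧ Canc x w then (1 : ℝ≥0∞) else 0) =
      ∑' w : F2, (if w.norm = n ∧ ¬ Canc (op x) w then (1 : ℝ≥0∞) else 0) := by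
    intro x
    rw [← (Equiv.mulLeft (lt x)⁻¹).tsum_eq]
    congr 1
    funext w
    refine if_congr ?_ rfl rfl
    rw [Equiv.coe_mulLeft]
    have e : (lt x)⁻¹ = lt (op x) := lt_inv x
    rw [e]
    have e2 : Canc x (lt (op x) * w) ↔ ¬ Canc (op x) w := by
      have := canc_inv (x := op x) (w := w)
      rw [show ((op x).1, !(op x).2) = x from op_op x] at this
      exact this
    rw [e2]
    by_cases h : Canc (op x) w
    · simp [h]
    · have := norm_of_not_canc h
      simp only [this, h, not_false_eq_true, and_true, add_left_inj]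
  rw [h1, Summable.tsum_finsetSum (fun _ _ => ENNReal.summable)]
  simp only [h2]
  rw [← Summable.tsum_finsetSum (fun _ _ => ENNReal.summable)]
  congr 1
  funext w
  by_cases h : w.norm = n
  · simp only [h, true_and, if_true]
    rw [← Equiv.sum_comp opE (fun x => if Canc x w then (0 : ℝ≥0∞) else 1)]
    refine Finset.sum_congr rfl fun x _ => ?_
    change _ = if Canc (op x) w then (0 : ℝ≥0∞) else 1
    split_ifs <;> simp_all
  · simp [h]

theorem NF_one : NF 1 = 4 := by
  rw [NF_succ 0]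
  have : (fun w : F2 => (if w.norm = 0 then
    (∑ x : Bool × Bool, (if Canc x w then (0 : ℝ≥0∞) else 1)) else 0)) =
      fun w : F2 => if w = 1 then 4 else 0 := by
    funext w
    by_cases h : w = 1
    · subst h
      rw [sum_canc_one]
      simp
    · rw [if_neg h, if_neg (by rwa [FreeGroup.norm_eq_zero])]
  rw [this, tsum_ite_eq]

theorem NF_two (n : ℕ) : NF (n + 2) = 3 * NF (n + 1) := by
  rw [NF_succ (n + 1), NF, ← ENNReal.tsum_mul_left]
  congr 1
  funext w
  by_cases h : w.norm = n + 1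
  · have hw : w ≠ 1 := by
      rintro rfl
      simp at h
    rw [if_pos h, if_pos h, sum_canc_two hw]
    simp
  · simp [h]

theorem NF_eq (n : ℕ) : NF (n + 1) = 4 * 3 ^ n := by
  induction n with
  | zero => rw [NF_one]; simp
  | succ n ih => rw [NF_two, ih, pow_succ]; ring

/-- The growth series of `F₂`. -/
noncomputable def PF (z : ℝ≥0∞) : ℝ≥0∞ := ∑' w : F2, z ^ w.norm

theorem PF_eq (z : ℝ≥0∞) : PF z = ∑' n : ℕ, NF n * z ^ n := by
  have h1 : PF z = ∑' w : F2, ∑' n : ℕ, (if w.norm = n then 1 else 0) * z ^ n := by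
    rw [PF]
    congr 1
    funext w
    have : (fun n : ℕ => (if w.norm = n then (1 : ℝ≥0∞) else 0) * z ^ n) =
        fun n => if n = w.norm then z ^ w.norm else 0 := by
      funext n
      by_cases h : w.norm = n
      · rw [if_pos h, if_pos h.symm, h, one_mul]
      · rw [if_neg h, if_neg (fun h' => h h'.symm), zero_mul]
    rw [this, tsum_ite_eq]
  rw [h1, ENNReal.tsum_comm]
  congr 1
  funext n
  rw [NF, ENNReal.tsum_mul_right]

theorem PF_le (z : ℝ≥0∞) : PF z = 1 + 4 * z * (1 - 3 * z)⁻¹ := by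
  rw [PF_eq, tsum_eq_zero_add' ENNReal.summable]
  have : (fun n : ℕ => NF (n + 1) * z ^ (n + 1)) = fun n => 4 * z * (3 * z) ^ n := by
    funext n
    rw [NF_eq, mul_pow, pow_succ]; ring
  rw [this, ENNReal.tsum_mul_left, ENNReal.tsum_geometric, NF_zero]
  simp

theorem le_PF (z : ℝ≥0∞) : 1 + 4 * z + 12 * z ^ 2 + 36 * z ^ 3 ≤ PF z := by
  rw [PF_eq]
  refine le_trans (le_of_eq ?_) (ENNReal.sum_le_tsum (Finset.range 4))
  simp only [Finset.sum_range_succ, Finset.sum_range_zero, NF_zero, NF_eq]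
  ring

/-- The growth series of `ℤ`. -/
noncomputable def PZ (z : ℝ≥0∞) : ℝ≥0∞ := ∑' n : ℤ, z ^ n.natAbs

theorem PZ_eq (z : ℝ≥0∞) : PZ z = (1 - z)⁻¹ + z * (1 - z)⁻¹ := by
  rw [PZ, tsum_of_nat_of_neg_add_one ENNReal.summable ENNReal.summable]
  have h1 : (fun n : ℕ => z ^ ((n : ℤ)).natAbs) = fun n => z ^ n := by
    funext n; simp
  have h2 : (fun n : ℕ => z ^ ((-((n : ℤ) + 1))).natAbs) = fun n => z * z ^ n := by
    funext n
    rw [Int.natAbs_neg, show ((n : ℤ) + 1).natAbs = n + 1 by omega, pow_succ]; ring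
  rw [h1, h2, ENNReal.tsum_mul_left, ENNReal.tsum_geometric]

theorem le_PZ (z : ℝ≥0∞) : 1 + 2 * z + 2 * z ^ 2 + 2 * z ^ 3 ≤ PZ z := by
  rw [PZ]
  refine le_trans (le_of_eq ?_) (ENNReal.sum_le_tsum {0, 1, -1, 2, -2, 3, -3})
  simp
  ring

/-- The weight of a nontrivial element of `F₂ × ℤ`. -/
noncomputable def mw (z : ℝ≥0∞) (k : KK) : ℝ≥0∞ := by
  classical exact if k = 1 then 0 else z ^ kl k

theorem mw_one (z : ℝ≥0∞) : mw z 1 = 0 := by simp [mw]

theorem mw_of_ne (z : ℝ≥0∞) {k : KK} (hk : k ≠ 1) : mw z k = z ^ kl k := by simp [mw, hk]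

theorem mw_inv (z : ℝ≥0∞) (k : KK) : mw z k⁻¹ = mw z k := by
  by_cases hk : k = 1
  · rw [hk, inv_one]
  · rw [mw_of_ne z hk, mw_of_ne z (by simpa using hk), kl_inv]

theorem tsum_mw (z : ℝ≥0∞) : 1 + ∑' k, mw z k = PF z * PZ z := by
  have h1 : (∑' k : KK, z ^ kl k) = PF z * PZ z := by
    have e : (fun k : KK => z ^ kl k) = fun k => z ^ k.1.norm *
        z ^ (Multiplicative.toAdd k.2).natAbs := by
      funext k
      rw [kl, pow_add]
    rw [e]
    have e2 := ENNReal.tsum_prod (f := fun (a : F2) (b : Multiplicative ℤ) => z ^ a.norm *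
        z ^ (Multiplicative.toAdd b).natAbs)
    rw [e2]
    simp only [ENNReal.tsum_mul_left, ENNReal.tsum_mul_right]
    rfl
  classical
  have h2 : (fun k : KK => z ^ kl k) = fun k => (if k = 1 then 1 else 0) + mw z k := by
    funext k
    by_cases hk : k = 1
    · rw [hk, mw_one]; simp
    · rw [mw_of_ne z hk]; simp [hk]
  rw [← h1, h2, ENNReal.tsum_add, tsum_ite_eq]

end Pool.Agent.TH98.GS
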