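import Pool.Agent.TH98.GS.Local
import Pool.Agent.TH98.GS.Growth

/-! # Stable subgroups, Morse elements -/

set_option autoImplicit false

namespace Pool.Agent.TH98.GS

open Pool.Agent.H659R3 Pool.Agent.H659R3.MorseLim Monoid Monoid.CoprodI

/-! ### A Morse element -/

/-- A generator of `F₂ × ℤ`. -/
def s0 : KK := (FreeGroup.of true, 1)

theorem s0_mem : s0 ∈ gK := Or.inl rfl

theorem kl_s0 : kl s0 = 1 := rfl

theorem s0_pow (n : ℕ) : kl (s0 ^ n) = n := by
  have e : s0 ^ n = ((FreeGroup.of true ^ n, 1) : KK) := by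
    rw [s0, Prod.pow_mk, one_pow]
  rw [e, kl]
  simp [FreeGroup.norm_of_pow]

theorem s0_ne : s0 ≠ 1 := fun h => by
  have := kl_s0
  rw [h, kl_one] at this
  omega

/-- The Morse element. -/
noncomputable def g0 : GG := ι true s0 * ι false s0

/-- The parity of a natural number. -/
def par' (n : ℕ) : Bool := n % 2 = 0

theorem par'_succ (n : ℕ) : par' (n + 1) = !par' n := by
  unfold par'
  rcases Nat.mod_two_eq_zero_or_one n with h | h
  · have : (n + 1) % 2 = 1 := by omega
    simp [h, this]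
  · have : (n + 1) % 2 = 0 := by omega
    simp [h, this]

/-- The alternating path. -/
noncomputable def alt : ℕ → GG
  | 0 => 1
  | n + 1 => alt n * ι (par' n) s0

theorem alt_succ (n : ℕ) : alt (n + 1) = alt n * ι (par' n) s0 := rfl

theorem alt_even (n : ℕ) : alt (2 * n) = g0 ^ n := by
  induction n with
  | zero => rfl
  | succ n ih =>
    have e : 2 * (n + 1) = 2 * n + 1 + 1 := by ring
    have h1 : par' (2 * n) = true := by unfold par'; simp
    have h2 : par' (2 * n + 1) = false := by rw [par'_succ, h1]; rfl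
    rw [e, alt_succ, alt_succ, ih, h1, h2, pow_succ, g0, mul_assoc]

theorem alt_near (i : ℕ) : ∃ k : ℕ, A.dist (alt i) (g0 ^ k) ≤ 1 := by
  refine ⟨i / 2, ?_⟩
  rw [← alt_even]
  rcases Nat.even_or_odd' i with ⟨c, rfl | rfl⟩
  · rw [Nat.mul_div_cancel_left _ (by norm_num)]
    simp
  · have : (2 * c + 1) / 2 = c := by omega
    rw [this, alt_succ, A.dist_comm]
    exact A.dist_mul_gen _ _ (Or.inl (mem_A s0_mem))

theorem alt_btw (g : GG) (i : ℕ) : Btw (g * alt i) (g * alt (i + 1)) (g * alt (i + 2)) := by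
  refine ⟨par' i, ?_, ?_⟩
  · have : (g * alt (i + 1))⁻¹ * (g * alt i) = ι (par' i) s0⁻¹ := by
      rw [alt_succ, map_inv]; group
    rw [this]
    exact fidx_ι (by simpa using s0_ne)
  · have : (g * alt (i + 1))⁻¹ * (g * alt (i + 2)) = ι (par' (i + 1)) s0 := by
      rw [alt_succ (i + 1)]; group
    rw [this, fidx_ι s0_ne, par'_succ]

theorem alt_gap (g : GG) (i : ℕ) : (A.dist (g * alt i) (g * alt (i + 1)) : ℝ) ≤ 1 := by
  rw [A.dist_mul_left, alt_succ]
  exact_mod_cast A.dist_mul_gen _ _ (Or.inl (mem_A s0_mem))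

theorem dist_pow_le (m n : ℤ) (h : m ≤ n) :
    (A.dist (g0 ^ m) (g0 ^ n) : ℝ) ≤ 2 * ((n : ℝ) - m) ∧
      2 * ((n : ℝ) - m) ≤ (A.dist (g0 ^ m) (g0 ^ n) : ℝ) + 1 := by
  obtain ⟨k, hk⟩ : ∃ k : ℕ, n = m + k := ⟨(n - m).toNat, by omega⟩
  subst hk
  have e1 : g0 ^ m = g0 ^ m * alt 0 := by
    have : alt 0 = 1 := rfl
    rw [this, mul_one]
  have e2 : g0 ^ (m + (k : ℤ)) = g0 ^ m * alt (2 * k) := by
    rw [alt_even, zpow_add, zpow_natCast]
  have h1 := dist_chain factorGen (w := fun j => g0 ^ m * alt j) (N := 2 * k)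
    (fun i _ => alt_btw _ i) (2 * k) le_rfl
  have h2 := dist_le_sum (w := fun j => g0 ^ m * alt j) (N := 2 * k) (B := 1)
    (fun i _ => alt_gap _ i) (2 * k) le_rfl
  rw [← e1, ← e2] at h1 h2
  have h3 : ((2 * k : ℕ) : ℝ) ≤ (A.dist (g0 ^ m) (g0 ^ (m + (k : ℤ))) : ℝ) + 1 := by
    exact_mod_cast h1
  push_cast at h2 h3 ⊢
  constructor <;> linarith

theorem g0_morse : IsMorseElement A g0 := by
  refine ⟨?_, ⟨2, 1, by norm_num, by norm_num, ?_⟩, fun lam eps => chainGauge 1 lam eps + 1, ?_⟩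
  · intro n hn h
    have := (dist_pow_le 0 n (by omega)).2
    rw [zpow_zero, zpow_natCast, h, FinGen.dist_self] at this
    push_cast at this
    have hn' : (1 : ℝ) ≤ n := by exact_mod_cast hn
    linarith
  · have key : ∀ m n : ℤ, m ≤ n → |(m : ℝ) - n| / 2 - 1 ≤ (A.dist (g0 ^ m) (g0 ^ n) : ℝ) ∧
        (A.dist (g0 ^ m) (g0 ^ n) : ℝ) ≤ 2 * |(m : ℝ) - n| + 1 := by
      intro m n h
      obtain ⟨h1, h2⟩ := dist_pow_le m n h
      have h' : (m : ℝ) ≤ n := by exact_mod_cast h
      rw [abs_sub_comm, abs_of_nonneg (by linarith)]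
      constructor <;> linarith
    intro m n
    rcases le_total m n with h | h
    · exact key m n h
    · have := key n m h
      rwa [abs_sub_comm, A.dist_comm] at this
  · have key : ∀ lam eps a b : ℝ, 1 ≤ lam → 0 ≤ eps → a ≤ b → ∀ q : ℝ → GG,
        QG A lam eps (Set.Icc a b) q → ∀ m n : ℤ, m ≤ n → g0 ^ m = q a → g0 ^ n = q b →
        ∀ x ∈ Set.Icc a b, ∃ y ∈ Set.range (fun n : ℤ => g0 ^ n),
          (A.dist (q x) y : ℝ) ≤ chainGauge 1 lam eps + 1 := by
      intro lam eps a b hlam heps hab q hq m n hmn hma hnb x hx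
      obtain ⟨k, hk⟩ : ∃ k : ℕ, n = m + k := ⟨(n - m).toNat, by omega⟩
      subst hk
      rcases Nat.eq_zero_or_pos k with rfl | hkpos
      · obtain ⟨i, -, hd⟩ := morse_of_chain (B := 1) hlam heps hab hq (w := fun _ => g0 ^ m)
          (N := 1) le_rfl hma (by
            have : g0 ^ (m + ((0 : ℕ) : ℤ)) = g0 ^ m := by simp
            rw [this] at hnb
            exact hnb) (fun i hi => by omega) (fun i _ => by simp) hx
        exact ⟨g0 ^ m, ⟨m, rfl⟩, by linarith⟩
      · have e1 : g0 ^ m = g0 ^ m * alt 0 := by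
          have : alt 0 = 1 := rfl
          rw [this, mul_one]
        have e2 : g0 ^ (m + (k : ℤ)) = g0 ^ m * alt (2 * k) := by
          rw [alt_even, zpow_add, zpow_natCast]
        obtain ⟨i, -, hd⟩ := morse_of_chain (B := 1) hlam heps hab hq
          (w := fun j => g0 ^ m * alt j) (N := 2 * k) (by omega) (by rw [← hma, ← e1])
          (by rw [← hnb, e2]) (fun i _ => alt_btw _ i) (fun i _ => alt_gap _ i) hx
        obtain ⟨j, hj⟩ := alt_near i
        refine ⟨g0 ^ (m + (j : ℤ)), ⟨m + j, rfl⟩, ?_⟩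
        have h1 : A.dist (g0 ^ m * alt i) (g0 ^ (m + (j : ℤ))) ≤ 1 := by
          rw [zpow_add, zpow_natCast, A.dist_mul_left]; exact hj
        have h2 : (A.dist (q x) (g0 ^ (m + (j : ℤ))) : ℝ) ≤ A.dist (q x) (g0 ^ m * alt i) +
            A.dist (g0 ^ m * alt i) (g0 ^ (m + (j : ℤ))) := by
          exact_mod_cast A.dist_triangle _ _ _
        have h3 : (A.dist (g0 ^ m * alt i) (g0 ^ (m + (j : ℤ))) : ℝ) ≤ 1 := by exact_mod_cast h1
        linarith
    rintro lam eps a b hlam heps hab q hq ⟨m, hm⟩ ⟨n, hn⟩ x hx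
    rcases le_total m n with h | h
    · exact key lam eps a b hlam heps hab q hq m n h hm hn x hx
    · have := key lam eps a b hlam heps hab _ hq.reverse n m h (hn.trans (by congr 1; ring))
        (hm.trans (by congr 1; ring)) (a + b - x) ⟨by linarith [hx.2], by linarith [hx.1]⟩
      have e : a + b - (a + b - x) = x := by ring
      rw [e] at this
      exact this

/-! ### `G` is not virtually cyclic -/

theorem not_comm {a b : KK} (ha : a ≠ 1) (hb : b ≠ 1) :
    ι true a * ι false b ≠ ι false b * ι true a := by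
  intro h
  have h1 : fidx (ι true a * ι false b) = some true := by
    rw [fidx_mul', fidx_ι ha]
    · intro h0
      have := fidx_ι (i := true) ha
      rw [h0, fidx_one] at this
      simp at this
    · left
      rw [← map_inv, fidx_ι (by simpa using ha), fidx_ι hb]
      simp
  have h2 : fidx (ι false b * ι true a) = some false := by
    rw [fidx_mul', fidx_ι hb]
    · intro h0
      have := fidx_ι (i := false) hb
      rw [h0, fidx_one] at this
      simp at this
    · left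
      rw [← map_inv, fidx_ι (by simpa using hb), fidx_ι ha]
      simp
  rw [h, h2] at h1
  simp at h1

theorem not_virtually_cyclic : ¬ ∃ C : Subgroup GG, C.FiniteIndex ∧ IsCyclic C := by
  rintro ⟨C, hC, hcyc⟩
  have hidx : C.index ≠ 0 := hC.index_ne_zero
  obtain ⟨m, hm0, -, hm⟩ := Subgroup.exists_pow_mem_of_index_ne_zero hidx (ι true s0)
  obtain ⟨n, hn0, -, hn⟩ := Subgroup.exists_pow_mem_of_index_ne_zero hidx (ι false s0)
  have hne : ∀ k : ℕ, 0 < k → s0 ^ k ≠ 1 := by
    intro k hk h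
    have := s0_pow k
    rw [h, kl_one] at this
    omega
  obtain ⟨c, hc⟩ := hcyc.exists_generator
  have hcomm : ∀ x y : C, x * y = y * x := by
    intro x y
    obtain ⟨a, rfl⟩ := Subgroup.mem_zpowers_iff.1 (hc x)
    obtain ⟨b, rfl⟩ := Subgroup.mem_zpowers_iff.1 (hc y)
    rw [← zpow_add, ← zpow_add, add_comm]
  have := hcomm ⟨_, hm⟩ ⟨_, hn⟩
  have h2 := congrArg Subtype.val this
  simp only [Subgroup.coe_mul] at h2
  rw [← map_pow, ← map_pow] at h2
  exact not_comm (hne m hm0) (hne n hn0) h2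

/-! ### Stable subgroups meet the conjugates of the factors trivially -/

theorem finite_ball (R : ℕ) : {k : KK | kl k ≤ R}.Finite := by
  have h1 : {u : F2 | u.norm ≤ R}.Finite := by
    have : {u : F2 | u.norm ≤ R} = FreeGroup.toWord ⁻¹' {l | l.length ≤ R} := rfl
    rw [this]
    exact (List.finite_length_le (Bool × Bool) R).preimage FreeGroup.toWord_injective.injOn
  have h2 : {n : Multiplicative ℤ | (Multiplicative.toAdd n).natAbs ≤ R}.Finite := by
    have h3 : (Set.Icc (-(R : ℤ)) R).Finite := Set.finite_Icc _ _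
    refine (h3.image Multiplicative.ofAdd).subset ?_
    intro n hn
    refine ⟨Multiplicative.toAdd n, ?_, rfl⟩
    have hn' : (Multiplicative.toAdd n).natAbs ≤ R := hn
    constructor <;> omega
  refine (h1.prod h2).subset ?_
  rintro ⟨u, n⟩ h
  have h' : u.norm + (Multiplicative.toAdd n).natAbs ≤ R := h
  exact ⟨show u.norm ≤ R by omega, show (Multiplicative.toAdd n).natAbs ≤ R by omega⟩

theorem exists_long_pow {k : KK} (hk : k ≠ 1) (R : ℕ) : ∃ n : ℕ, R < kl (k ^ n) := by
  by_contra h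
  push Not at h
  have hinj : Function.Injective fun n : ℕ => k ^ n := by
    have : IsMulTorsionFree KK := inferInstance
    have hk' : ¬ IsOfFinOrder k := fun hf => hk ((isOfFinOrder_iff_eq_one k).1 hf)
    exact injective_pow_iff_not_isOfFinOrder.2 hk'
  exact Set.infinite_range_of_injective hinj ((finite_ball R).subset (by
    rintro _ ⟨n, rfl⟩
    exact h n))

theorem stable_trivial {H : Subgroup GG} (hH : IsStable A H) (i : Bool) (g : GG) (k : KK)
    (hk : g * ι i k * g⁻¹ ∈ H) : k = 1 := by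
  by_contra hk1
  obtain ⟨-, M, hM⟩ := hH
  obtain ⟨R, hR⟩ := exists_nat_gt (4 * (A.len g : ℝ) + 2 * M 6 (1 + 2 * A.len g))
  obtain ⟨n, hn⟩ := exists_long_pow hk1 R
  obtain ⟨a, ha⟩ : ∃ a, a = k ^ n := ⟨_, rfl⟩
  rw [← ha] at hn
  have hmem : g * ι i a * g⁻¹ ∈ H := by
    have e : g * ι i a * g⁻¹ = (g * ι i k * g⁻¹) ^ n := by
      rw [ha, map_pow, conj_pow]
    rw [e]
    exact pow_mem hk n
  have hkl : 0 < kl a := by omega
  -- the detour
  obtain ⟨L, p, hL, p0, pL, hp, hp1, hp2⟩ := detour a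
  have hkL : kl a < L := by
    rcases Nat.eq_or_lt_of_le hL with h | h
    · exfalso
      rw [h, pL, inv_mul_cancel, kl_one] at hp2
      omega
    · exact h
  have hLpos : (0:ℝ) < L := by
    have : 0 < L := by omega
    exact_mod_cast this
  have hq0 : QG A 6 1 (Set.Icc 0 (L:ℝ)) (fun s => g * ι i (p ⌊s⌋₊)) := by
    refine QG_of_nat (p := fun n => g * ι i (p n)) (by norm_num) fun m n hmn hn => ?_
    obtain ⟨h1, h2⟩ := hp m n hmn hn
    rw [dist_coset]
    refine ⟨h1, ?_⟩
    rw [div_le_iff₀ (by norm_num)]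
    have : ((n : ℝ) - m) ≤ 6 * kl ((p m)⁻¹ * p n) := by exact_mod_cast h2
    linarith
  have d1 : A.dist (1 : GG) g = A.len g := A.dist_one_left g
  have d2 : A.dist (g * ι i a * g⁻¹) (g * ι i a) = A.len g := by
    rw [FinGen.dist]
    congr 1
    group
  obtain ⟨q, hqq, hqa, hqb, hqt⟩ := hq0.move (D := A.len g) (Nat.cast_nonneg _) (x := 1)
    (y := g * ι i a * g⁻¹) (by simp [p0, d1]) (by simp [pL, d2]) hLpos
  obtain ⟨x, hx⟩ : ∃ x, x = g * ι i (p (kl a)) := ⟨_, rfl⟩
  -- the geodesic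
  obtain ⟨pg, pg0, pgn, hpg⟩ := exists_geod (A := A) 1 (g * ι i a * g⁻¹)
  obtain ⟨N, hN⟩ : ∃ N, N = A.dist 1 (g * ι i a * g⁻¹) := ⟨_, rfl⟩
  rw [← hN] at pgn hpg
  have hMset := hM N pg hpg (by rw [pg0]; exact H.one_mem) (by rw [pgn]; exact hmem)
  obtain ⟨_, ⟨j, hj, rfl⟩, hd⟩ := hMset 6 (1 + 2 * A.len g) 0 L (by norm_num) (by positivity)
    hLpos.le q hqq ⟨0, Nat.zero_le _, by rw [pg0, hqa]⟩ ⟨N, le_refl N, by rw [pgn, hqb]⟩ (kl a)
    ⟨Nat.cast_nonneg _, by exact_mod_cast hL⟩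
  have hqx : q (kl a) = x := by
    rw [hqt (kl a) (by exact_mod_cast hkl) (by exact_mod_cast hkL), hx]
    simp
  rw [hqx] at hd
  have x1 := hpg.nat (m := 0) (n := j) (Nat.zero_le N) hj (Nat.zero_le j)
  have x2 := hpg.nat (m := j) (n := N) hj (le_refl N) hj
  rw [pg0] at x1
  rw [pgn] at x2
  have z1 : A.dist g x = kl a := by
    have := dist_coset g i 1 (p (kl a))
    rw [map_one, mul_one, inv_one, one_mul, hp1] at this
    rw [hx]; exact this
  have z2 : kl a ≤ A.dist x (g * ι i a) := by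
    rw [hx, dist_coset]; exact hp2
  have z3 : A.dist g (g * ι i a) = kl a := by
    have := dist_coset g i 1 a
    rwa [map_one, mul_one, inv_one, one_mul] at this
  have t1 := A.dist_triangle 1 (pg j) x
  have t2 := A.dist_triangle x (pg j) (g * ι i a * g⁻¹)
  have t3 := A.dist_triangle g 1 x
  have t4 := A.dist_triangle x (g * ι i a * g⁻¹) (g * ι i a)
  have t5 := A.dist_triangle 1 g (g * ι i a * g⁻¹)
  have t6 := A.dist_triangle g (g * ι i a) (g * ι i a * g⁻¹)
  rw [A.dist_comm (pg j) x] at t1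
  rw [A.dist_comm g 1] at t3
  rw [A.dist_comm (g * ι i a) (g * ι i a * g⁻¹)] at t6
  have hj' : j ≤ N := hj
  have key : kl a ≤ 4 * A.len g + 2 * A.dist x (pg j) := by omega
  have key' : (kl a : ℝ) ≤ 4 * A.len g + 2 * A.dist x (pg j) := by exact_mod_cast key
  have hn' : (R : ℝ) < kl a := by exact_mod_cast hn
  linarith

end Pool.Agent.TH98.GS
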