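import Pool.Agent.TH98.GS.Detour
import Pool.Agent.TH98.GS.Geo

/-! # Morse quasi-geodesics have short syllables -/

set_option autoImplicit false

namespace Pool.Agent.TH98.GS

open Pool.Agent.H659R3 Pool.Agent.H659R3.MorseLim Monoid Monoid.CoprodI

theorem crossing' {lam eps a b : ℝ} {q : ℝ → GG} (hlam : 1 ≤ lam) (hab : a ≤ b)
    (hq : QG A lam eps (Set.Icc a b) q) {u : GG} (hb : Btw (q a) u (q b)) :
    ∃ c ∈ Set.Icc a b, (A.dist (q c) u : ℝ) ≤ lam + eps := by
  obtain ⟨i, h1, h2⟩ := hb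
  have hq' : IsQuasiGeod A lam eps (b - a) (fun s => q (a + s)) := by
    intro s hs t ht
    have := hq (a + s) ⟨by linarith [hs.1], by linarith [hs.2]⟩ (a + t)
      ⟨by linarith [ht.1], by linarith [ht.2]⟩
    have e : |a + s - (a + t)| = |s - t| := by congr 1; ring
    rw [e] at this
    exact this
  obtain ⟨s, hs, hd⟩ := crossing hlam (by linarith) hq' (isCut factorGen u i)
    (by simpa using h1) (by
      change ¬ fidx (u⁻¹ * q (a + (b - a))) = some i
      have e : a + (b - a) = b := by ring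
      rw [e, h2]
      simp)
  exact ⟨a + s, ⟨by linarith [hs.1], by linarith [hs.2]⟩, hd⟩

theorem btw_of_split {g : GG} {l1 l2 : List (Σ _ : Bool, KK)} (h : Red (l1 ++ l2))
    (h1 : l1 ≠ []) (h2 : l2 ≠ []) : Btw g (g * MorseLim.lp l1) (g * MorseLim.lp (l1 ++ l2)) := by
  have hr := h.2
  rw [List.isChain_append] at hr
  have r1 : Red l1 := ⟨fun x hx => h.1 x (List.mem_append_left _ hx), hr.1⟩
  have r2 : Red l2 := ⟨fun x hx => h.1 x (List.mem_append_right _ hx), hr.2.1⟩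
  have e1 : (g * MorseLim.lp l1)⁻¹ * g = (MorseLim.lp l1)⁻¹ := by group
  have e2 : (g * MorseLim.lp l1)⁻¹ * (g * MorseLim.lp (l1 ++ l2)) = MorseLim.lp l2 := by
    rw [lp_append]; group
  rw [Btw, e1, e2, fidx_inv, wd_lp r1, fidx_eq, wd_lp r2]
  obtain ⟨x, hx⟩ : ∃ x, l1.getLast? = some x := by
    rw [← Option.isSome_iff_exists, List.getLast?_isSome]; exact h1
  obtain ⟨y, hy⟩ : ∃ y, l2.head? = some y := by
    rw [← Option.isSome_iff_exists, List.isSome_head?]; exact h2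
  have hxy := hr.2.2 x hx y hy
  refine ⟨x.1, by rw [lastI, hx]; rfl, ?_⟩
  rw [hy]
  simp only [Option.map_some, Option.some.injEq]
  cases hx1 : x.1 <;> cases hy1 : y.1 <;> simp_all

theorem near_vertex {lam eps a b : ℝ} {q : ℝ → GG} (hlam : 1 ≤ lam) (heps : 0 ≤ eps)
    (hab : a ≤ b) (hq : QG A lam eps (Set.Icc a b) q) {l1 l2 : List (Σ _ : Bool, KK)}
    (hw : wd ((q a)⁻¹ * q b) = l1 ++ l2) :
    ∃ c ∈ Set.Icc a b, (A.dist (q c) (q a * MorseLim.lp l1) : ℝ) ≤ lam + eps := by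
  have hr : Red (l1 ++ l2) := by rw [← hw]; exact wd_red _
  have e : q b = q a * MorseLim.lp (l1 ++ l2) := by rw [← hw, lp_wd]; group
  by_cases h1 : l1 = []
  · subst h1
    refine ⟨a, ⟨le_rfl, hab⟩, ?_⟩
    have : MorseLim.lp ([] : List (Σ _ : Bool, KK)) = 1 := rfl
    rw [this, mul_one, FinGen.dist_self]
    push_cast
    linarith
  by_cases h2 : l2 = []
  · subst h2
    refine ⟨b, ⟨hab, le_rfl⟩, ?_⟩
    rw [e, List.append_nil, FinGen.dist_self]
    push_cast
    linarith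
  · apply crossing' hlam hab hq
    have := btw_of_split (g := q a) hr h1 h2
    rwa [← e] at this

theorem dist_coset (v : GG) (i : Bool) (a b : KK) :
    A.dist (v * ι i a) (v * ι i b) = kl (a⁻¹ * b) := by
  rw [A.dist_mul_left, FinGen.dist, ← map_inv, ← map_mul, len_ι]

/-- The bound on syllables. -/
noncomputable def KB (M : ℝ → ℝ → ℝ) (lam eps : ℝ) : ℝ :=
  2 * (M 6 (1 + 2 * (lam + eps)) + (lam * (lam * (2 * M 1 1 + |(1:ℝ)| + eps)) + eps + M 1 1))

theorem syll_bound {M : ℝ → ℝ → ℝ} {lam eps a b : ℝ} {γ : ℝ → GG} (hlam : 1 ≤ lam)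
    (heps : 0 ≤ eps) (hab : a ≤ b) (hγ : MorseQG A M lam eps (Set.Icc a b) γ)
    {l1 l2 : List (Σ _ : Bool, KK)} {i : Bool} {k : KK}
    (hw : wd ((γ a)⁻¹ * γ b) = l1 ++ ⟨i, k⟩ :: l2) : (kl k : ℝ) ≤ KB M lam eps := by
  obtain ⟨hq, hM⟩ := hγ
  have hr : Red (l1 ++ ⟨i, k⟩ :: l2) := by rw [← hw]; exact wd_red _
  have hk : k ≠ 1 := hr.1 ⟨i, k⟩ (by simp)
  have hkl : kl k ≠ 0 := fun h => hk (kl_eq_zero.1 h)
  have e : γ b = γ a * MorseLim.lp (l1 ++ ⟨i, k⟩ :: l2) := by rw [← hw, lp_wd]; group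
  obtain ⟨v, hv⟩ : ∃ v, v = γ a * MorseLim.lp l1 := ⟨_, rfl⟩
  obtain ⟨v', hv'⟩ : ∃ v', v' = v * ι i k := ⟨_, rfl⟩
  have e1 : γ b = v' * MorseLim.lp l2 := by
    rw [e, hv', hv, lp_append, lp_cons]; group
  -- the points near the two vertices
  obtain ⟨c, hc, hcv⟩ := near_vertex hlam heps hab hq hw
  rw [← hv] at hcv
  have hw' : wd ((γ a)⁻¹ * γ b) = (l1 ++ [⟨i, k⟩]) ++ l2 := by rw [hw]; simp
  obtain ⟨c', hc', hcv'⟩ := near_vertex hlam heps hab hq hw'
  have ev' : γ a * MorseLim.lp (l1 ++ [⟨i, k⟩]) = v' := by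
    rw [hv', hv, lp_append, lp_singleton, mul_assoc]
  rw [ev'] at hcv'
  -- the detour
  obtain ⟨L, p, hL, p0, pL, hp, hp1, hp2⟩ := detour k
  have hkL : kl k < L := by
    rcases Nat.eq_or_lt_of_le hL with h | h
    · exfalso
      rw [h, pL, inv_mul_cancel, kl_one] at hp2
      omega
    · exact h
  have hLpos : (0:ℝ) < L := by
    have : 0 < L := by omega
    exact_mod_cast this
  have hq0 : QG A 6 1 (Set.Icc 0 (L:ℝ)) (fun s => v * ι i (p ⌊s⌋₊)) := by
    refine QG_of_nat (p := fun n => v * ι i (p n)) (by norm_num) fun m n hmn hn => ?_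
    obtain ⟨h1, h2⟩ := hp m n hmn hn
    rw [dist_coset]
    refine ⟨h1, ?_⟩
    rw [div_le_iff₀ (by norm_num)]
    have : ((n : ℝ) - m) ≤ 6 * kl ((p m)⁻¹ * p n) := by exact_mod_cast h2
    linarith
  obtain ⟨q, hqq, hqa, hqb, hqt⟩ := hq0.move (D := lam + eps) (by linarith) (x := γ c) (y := γ c')
    (by simpa [p0] using hcv) (by simpa [pL, ← hv'] using hcv') hLpos
  obtain ⟨x, hx⟩ : ∃ x, x = v * ι i (p (kl k)) := ⟨_, rfl⟩
  obtain ⟨_, ⟨t0, ht0, rfl⟩, hd⟩ := hM 6 (1 + 2 * (lam + eps)) 0 L (by norm_num) (by linarith)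
    hLpos.le q hqq ⟨c, hc, hqa.symm⟩ ⟨c', hc', hqb.symm⟩ (kl k)
    ⟨Nat.cast_nonneg _, by exact_mod_cast hL⟩
  have hqx : q (kl k) = x := by
    rw [hqt (kl k) (by exact_mod_cast Nat.pos_of_ne_zero hkl) (by exact_mod_cast hkL), hx]
    simp
  rw [hqx] at hd
  -- the geodesic
  obtain ⟨pg, pg0, pgn, hpg⟩ := exists_geod (A := A) (γ a) (γ b)
  obtain ⟨n, hn⟩ : ∃ n, n = A.dist (γ a) (γ b) := ⟨_, rfl⟩
  rw [← hn] at pgn hpg
  have hn0 : n ≠ 0 := by
    intro h0
    rw [h0] at hn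
    have := A.eq_of_dist hn.symm
    rw [this, inv_mul_cancel, wd_one] at hw
    simp at hw
  have hqg : QG A 1 1 (Set.Icc 0 (n:ℝ)) (fun s => pg ⌊s⌋₊) := by
    refine QG_of_nat le_rfl fun i j hij hj => ?_
    have := hpg.nat (m := i) (n := j) (hij.trans hj) hj hij
    refine ⟨this.le, ?_⟩
    rw [this, Nat.cast_sub hij, div_one]
  have hcj : ∀ j ≤ n, ∃ c ∈ Set.Icc a b, (A.dist (γ c) (pg j) : ℝ) ≤ M 1 1 := by
    intro j hj
    obtain ⟨_, ⟨c, hc, rfl⟩, hd⟩ := hM 1 1 0 n le_rfl zero_le_one (Nat.cast_nonneg n) _ hqg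
      ⟨a, ⟨le_rfl, hab⟩, by simp [pg0]⟩ ⟨b, ⟨hab, le_rfl⟩, by simp [pgn]⟩ j
      ⟨Nat.cast_nonneg j, by exact_mod_cast hj⟩
    rw [Nat.floor_natCast, A.dist_comm] at hd
    exact ⟨c, hc, hd⟩
  have hM0 : 0 ≤ M 1 1 := by
    obtain ⟨c, -, h⟩ := hcj 0 (Nat.zero_le _)
    exact le_trans (Nat.cast_nonneg _) h
  choose! cj hcj1 hcj2 using hcj
  obtain ⟨j, hj, hdj⟩ := connect (D := M 1 1) (b0 := 1) hlam hq (w := pg) (N := n)
    (c := fun j => if j = 0 then a else if j = n then b else cj j) (by simp) (by simp [hn0])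
    (by
      intro j hj
      split_ifs
      · exact ⟨le_rfl, hab⟩
      · exact ⟨hab, le_rfl⟩
      · exact hcj1 j hj)
    (by
      intro j hj
      split_ifs with h1 h2
      · rw [h1, pg0]; simpa using hM0
      · rw [h2, pgn]; simpa using hM0
      · exact hcj2 j hj)
    (by
      intro j hj
      have := hpg.nat (m := j) (n := j + 1) (show j ≤ n by omega) (show j + 1 ≤ n by omega)
        (by omega)
      rw [this]
      simp) ht0 heps
  -- the excess
  have x1 := hpg.nat (m := 0) (n := j) (Nat.zero_le n) hj (Nat.zero_le j)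
  have x2 := hpg.nat (m := j) (n := n) hj (le_refl n) hj
  rw [pg0] at x1
  rw [pgn] at x2
  -- lower bounds
  have y1 : A.dist (γ a) v + kl k ≤ A.dist (γ a) x := by
    have z1 : A.dist v x = kl k := by
      have := dist_coset v i 1 (p (kl k))
      rw [map_one, mul_one, inv_one, one_mul, hp1] at this
      rw [hx]; exact this
    by_cases hl1 : l1 = []
    · subst hl1
      have : v = γ a := by
        rw [hv]
        have : MorseLim.lp ([] : List (Σ _ : Bool, KK)) = 1 := rfl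
        rw [this, mul_one]
      rw [this] at z1 ⊢
      simp [z1]
    · have hκ : p (kl k) ≠ 1 := by
        intro h
        rw [h, kl_one] at hp1
        exact hkl hp1.symm
      obtain ⟨j, hj1, hj2⟩ := btw_of_split (g := γ a) hr hl1 (by simp)
      rw [← hv, ← e] at hj2
      rw [← hv] at hj1
      have hb : Btw (γ a) v x := by
        refine ⟨j, hj1, ?_⟩
        rw [← hj2, hx, inv_mul_cancel_left, fidx_ι hκ, e1, hv']
        have e3 : v⁻¹ * (v * ι i k * MorseLim.lp l2) = ι i k * MorseLim.lp l2 := by group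
        rw [e3]
        have r2 : Red (⟨i, k⟩ :: l2 : List (Σ _ : Bool, KK)) := by
          have := hr.2
          rw [List.isChain_append] at this
          exact ⟨fun x hx => hr.1 x (List.mem_append_right _ hx), this.2.1⟩
        have e4 : ι i k * MorseLim.lp l2 = MorseLim.lp (⟨i, k⟩ :: l2 : List (Σ _ : Bool, KK)) := by
          rw [lp_cons]
        rw [e4, fidx_eq, wd_lp r2]
        simp
      have := hb.dist factorGen
      omega
  have y2 : A.dist v' (γ b) + kl k ≤ A.dist x (γ b) := by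
    have z1 : kl k ≤ A.dist x v' := by
      rw [hx, hv', dist_coset]; exact hp2
    by_cases hl2 : l2 = []
    · subst hl2
      have : γ b = v' := by
        rw [e1]
        have : MorseLim.lp ([] : List (Σ _ : Bool, KK)) = 1 := rfl
        rw [this, mul_one]
      rw [this]
      simpa using z1
    · have hr' : Red ((l1 ++ [⟨i, k⟩]) ++ l2) := by simpa using hr
      obtain ⟨j, hj1, hj2⟩ := btw_of_split (g := γ a) hr' (by simp) hl2
      rw [← List.append_cons, ← e, ev'] at hj2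
      rw [ev'] at hj1
      have hκ : k⁻¹ * p (kl k) ≠ 1 := by
        intro h
        rw [← inv_mul_eq_one.1 h, inv_mul_cancel, kl_one] at hp2
        omega
      have hb : Btw x v' (γ b) := by
        refine ⟨j, ?_, hj2⟩
        rw [← hj1]
        have e5 : v'⁻¹ * x = ι i (k⁻¹ * p (kl k)) := by
          rw [hx, hv', map_mul, map_inv]; group
        have e6 : v'⁻¹ * γ a = (MorseLim.lp (l1 ++ [⟨i, k⟩]))⁻¹ := by
          rw [← ev']; group
        have r1 : Red (l1 ++ [⟨i, k⟩] : List (Σ _ : Bool, KK)) := by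
          have := hr'.2
          rw [List.isChain_append] at this
          exact ⟨fun x hx => hr'.1 x (List.mem_append_left _ hx), this.1⟩
        rw [e5, fidx_ι hκ, e6, fidx_inv, wd_lp r1, lastI_snoc]
      have := hb.dist factorGen
      omega
  have y3 : A.dist (γ a) (γ b) ≤ A.dist (γ a) v + kl k + A.dist v' (γ b) := by
    have z1 : A.dist v v' = kl k := by
      have := dist_coset v i 1 k
      rw [map_one, mul_one, inv_one, one_mul] at this
      rw [hv']; exact this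
    have t1 := A.dist_triangle (γ a) v (γ b)
    have t2 := A.dist_triangle v v' (γ b)
    omega
  have t1 := A.dist_triangle (γ a) (pg j) x
  have t2 := A.dist_triangle x (pg j) (γ b)
  have t3 := A.dist_triangle x (γ t0) (pg j)
  rw [A.dist_comm (pg j) x] at t1
  have key : kl k ≤ 2 * (A.dist x (γ t0) + A.dist (γ t0) (pg j)) := by omega
  have key' : (kl k : ℝ) ≤ 2 * (A.dist x (γ t0) + A.dist (γ t0) (pg j)) := by exact_mod_cast key
  rw [KB]
  linarith

end Pool.Agent.TH98.GS
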